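import Pool.Agent.TH577.UA.Tor
set_option autoImplicit false

/-!
The hypersurfaces `λ ∏_e L_e ^ (w_e + 1) = 1` are irreducible, if one of the exponents is one.
-/

namespace Pool.Agent.TH577.UA

open Pool.Agent.TH826.MH (irr_sub_one)

open Pool.Agent.TH826.GA (cm lf al be chg chg_lf al_T be_T rest finSucc_lf)

section basis

variable {K : Type*} [Field K] {d m : ℕ} {c : Fin (m + 1) → Fin (d + 1) → K}

/-- a basis with a given form in a given place -/
theorem exists_basis (hR : ∃ T : Fin (d + 1) → Fin (m + 1), (cm c T).det ≠ 0)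
    {e0 : Fin (m + 1)} (he0 : ∃ j, c e0 j ≠ 0) (i0 : Fin (d + 1)) :
    ∃ T : Fin (d + 1) → Fin (m + 1), (cm c T).det ≠ 0 ∧ T i0 = e0 := by
  classical
  obtain ⟨T, hT⟩ := hR
  have h1 : ∃ i, al c T e0 i ≠ 0 := by
    by_contra hcon
    push Not at hcon
    obtain ⟨j, hj⟩ := he0
    apply hj
    rw [sum_al hT e0 j]
    exact Finset.sum_eq_zero fun l _ => by rw [hcon l, zero_mul]
  obtain ⟨i, hi⟩ := h1
  refine ⟨fun k => Function.update T i e0 (Equiv.swap i i0 k), ?_, ?_⟩
  · have h2 : cm c (fun k => Function.update T i e0 (Equiv.swap i i0 k)) =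
        (cm c (Function.update T i e0)).submatrix (Equiv.swap i i0) id := rfl
    rw [h2, Matrix.det_permute]
    refine mul_ne_zero ?_ ?_
    · rcases Int.units_eq_one_or (Equiv.Perm.sign (Equiv.swap i i0)) with h3 | h3
      · rw [h3]
        simp
      · rw [h3]
        simp
    · rw [det_update hT]
      exact mul_ne_zero hi hT
  · show Function.update T i e0 (Equiv.swap i i0 i0) = e0
    rw [Equiv.swap_apply_right, Function.update_self]

end basis

section Dom

variable {K : Type*} [Field K] [Infinite K] {d m : ℕ} {c : Fin (m + 1) → Fin (d + 1 + 1) → K}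
  {a : Fin (m + 1) → K}

omit [Infinite K] in
theorem simple_zero (q' : MvPolynomial (Fin (d + 1)) K) {y : Fin (d + 1) → K} (hy : y 0 = 0)
    (hq'y : MvPolynomial.eval y q' ≠ 0) :
    MvPolynomial.eval y (MvPolynomial.X 0 * q') = 0 ∧
      (MvPolynomial.X 0 * q' : MvPolynomial (Fin (d + 1)) K) ≠ 0 ∧
      ∀ g h, MvPolynomial.eval y g = 0 → MvPolynomial.eval y h = 0 →
        (MvPolynomial.X 0 * q' : MvPolynomial (Fin (d + 1)) K) ≠ g * h := by
  refine ⟨?_, ?_, ?_⟩
  · rw [map_mul, MvPolynomial.eval_X, hy, zero_mul]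
  · refine mul_ne_zero (MvPolynomial.X_ne_zero _) ?_
    intro e
    rw [e, map_zero] at hq'y
    exact hq'y rfl
  · intro g h hg hh e
    have h2 := congrArg (fun p => MvPolynomial.eval y (MvPolynomial.pderiv 0 p)) e
    simp only [Derivation.leibniz, smul_eq_mul, map_add, map_mul, hg, hh, zero_mul,
      MvPolynomial.pderiv_X_self, MvPolynomial.eval_X, add_zero] at h2
    rw [hy, zero_mul, zero_add] at h2
    apply hq'y
    simpa using h2

theorem exists_point {T : Fin (d + 1 + 1) → Fin (m + 1)} (hT : (cm c T).det ≠ 0)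
    (hD : Distinct c a) (Q : Finset (Fin (m + 1))) (hQ : ∀ e ∈ Q, al c T e 0 = 0)
    (hQ' : ∀ e ∈ Q, e ≠ T (Fin.succ 0)) :
    ∃ y : Fin (d + 1) → K, y 0 = 0 ∧ ∀ e ∈ Q, MvPolynomial.eval y (rest c a T e) ≠ 0 := by
  classical
  set p : Fin (m + 1) → MvPolynomial (Fin (d + 1)) K := fun e =>
    ∑ l ∈ Finset.univ.erase 0, MvPolynomial.C (al c T e l.succ) * MvPolynomial.X l +
      MvPolynomial.C (be c a T e) with hp
  have hpe : ∀ e ∈ Q, p e ≠ 0 := by
    intro e he h0
    have hev : ∀ y : Fin (d + 1) → K, ∑ l ∈ Finset.univ.erase 0, al c T e l.succ * y l +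
        be c a T e = 0 := by
      intro y
      have h1 := congrArg (MvPolynomial.eval y) h0
      simp only [hp, map_add, map_sum, map_mul, MvPolynomial.eval_C, MvPolynomial.eval_X,
        map_zero] at h1
      exact h1
    have hbe : be c a T e = 0 := by
      have h1 := hev 0
      simpa using h1
    have hal : ∀ l : Fin (d + 1), l ≠ 0 → al c T e l.succ = 0 := by
      intro l hl
      have h1 := hev (Pi.single l 1)
      rw [hbe, add_zero, Finset.sum_eq_single l] at h1
      · simpa using h1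
      · intro k _ hk
        rw [Pi.single_eq_of_ne hk, mul_zero]
      · intro h
        exact absurd (Finset.mem_erase.2 ⟨hl, Finset.mem_univ l⟩) h
    refine hQ' e he (eq_T_of hT hD hbe (i := Fin.succ 0) fun l hl => ?_)
    revert hl
    refine Fin.cases (fun _ => hQ e he) (fun l hl => ?_) l
    exact hal l fun h => hl (by rw [h])
  have hne : ∏ e ∈ Q, p e ≠ 0 := Finset.prod_ne_zero_iff.2 hpe
  have hex : ∃ y, MvPolynomial.eval y (∏ e ∈ Q, p e) ≠ 0 := by
    by_contra hcon
    push Not at hcon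
    apply hne
    refine MvPolynomial.funext fun y => ?_
    rw [hcon, map_zero]
  obtain ⟨y, hy⟩ := hex
  rw [map_prod] at hy
  refine ⟨Function.update y 0 0, Function.update_self _ _ _, fun e he => ?_⟩
  have h1 := (Finset.prod_ne_zero_iff.1 hy) e he
  have h2 : MvPolynomial.eval (Function.update y 0 0) (rest c a T e) =
      MvPolynomial.eval y (p e) := by
    unfold rest
    simp only [hp, map_add, map_sum, map_mul, MvPolynomial.eval_C, MvPolynomial.eval_X]
    congr 1
    rw [← Finset.add_sum_erase _ _ (Finset.mem_univ (0 : Fin (d + 1))), Function.update_self,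
      mul_zero, zero_add]
    refine Finset.sum_congr rfl fun l hl => ?_
    rw [Function.update_of_ne (Finset.ne_of_mem_erase hl)]
  rw [h2]
  exact h1

theorem irreducible_aeqn (hR : ∃ T : Fin (d + 1 + 1) → Fin (m + 1), (cm c T).det ≠ 0)
    (hD : Distinct c a) {w : Fin (m + 1) → ℕ} {e0 : Fin (m + 1)} (he0 : ∃ j, c e0 j ≠ 0)
    (hw0 : w e0 = 0) {lam : K} (hlam : lam ≠ 0) : Irreducible (aeqn lam 1 w c a) := by
  classical
  obtain ⟨T, hT, hTe⟩ := exists_basis hR he0 (Fin.succ 0)
  rw [← MulEquiv.irreducible_iff (chg c a T hT),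
    ← MulEquiv.irreducible_iff (MvPolynomial.finSuccEquiv K (d + 1))]
  have hC : ∀ x : K, MvPolynomial.finSuccEquiv K (d + 1) (MvPolynomial.C x) =
      Polynomial.C (MvPolynomial.C x) := by
    intro x
    rw [MvPolynomial.finSuccEquiv_apply]
    simp
  have hC2 : ∀ x : K, chg c a T hT (MvPolynomial.C x) = MvPolynomial.C x := fun x =>
    (chg c a T hT).commutes x
  set Q : Finset (Fin (m + 1)) := Finset.univ.filter fun e => al c T e 0 = 0 with hQ
  have hQ1 : ∀ e ∈ Q, al c T e 0 = 0 := fun e he => (Finset.mem_filter.1 he).2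
  have hQ2 : ∀ e, e ∉ Q → al c T e 0 ≠ 0 := fun e he h =>
    he (Finset.mem_filter.2 ⟨Finset.mem_univ _, h⟩)
  have he0Q : e0 ∈ Q := by
    refine Finset.mem_filter.2 ⟨Finset.mem_univ _, ?_⟩
    rw [← hTe, al_T T hT, if_neg (Fin.succ_ne_zero _)]
  have hrest0 : rest c a T e0 = MvPolynomial.X 0 := by
    unfold rest
    rw [← hTe, be_T T hT]
    simp only [al_T T hT, Fin.succ_inj]
    rw [Finset.sum_eq_single 0]
    · simp
    · intro l _ hl
      rw [if_neg (Ne.symm hl)]
      simp
    · intro h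
      exact absurd (Finset.mem_univ _) h
  have hprodQ : ∏ e ∈ Q, (Polynomial.C (MvPolynomial.C (al c T e 0)) * Polynomial.X +
      Polynomial.C (rest c a T e)) ^ (w e + 1) =
      Polynomial.C (∏ e ∈ Q, rest c a T e ^ (w e + 1)) := by
    rw [map_prod]
    refine Finset.prod_congr rfl fun e he => ?_
    rw [hQ1 e he]
    simp
  have hprodP : ∏ e ∈ Qᶜ, (Polynomial.C (MvPolynomial.C (al c T e 0)) * Polynomial.X +
      Polynomial.C (rest c a T e)) ^ (w e + 1) =
      Polynomial.C (MvPolynomial.C (∏ e ∈ Qᶜ, al c T e 0 ^ (w e + 1))) *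
        ∏ e ∈ Qᶜ, (Polynomial.X + Polynomial.C (MvPolynomial.C (al c T e 0)⁻¹ *
          rest c a T e)) ^ (w e + 1) := by
    rw [map_prod, map_prod, ← Finset.prod_mul_distrib]
    refine Finset.prod_congr rfl fun e he => ?_
    have h1 := hQ2 e (Finset.mem_compl.1 he)
    rw [map_pow, map_pow, ← mul_pow]
    congr 1
    rw [mul_add, ← Polynomial.C_mul, ← mul_assoc, ← MvPolynomial.C_mul, mul_inv_cancel₀ h1,
      MvPolynomial.C_1, one_mul]
  set κ : K := lam * ∏ e ∈ Qᶜ, al c T e 0 ^ (w e + 1) with hκ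
  have hκ0 : κ ≠ 0 := mul_ne_zero hlam
    (Finset.prod_ne_zero_iff.2 fun e he => pow_ne_zero _ (hQ2 e (Finset.mem_compl.1 he)))
  set q' : MvPolynomial (Fin (d + 1)) K := MvPolynomial.C κ *
    ∏ e ∈ Q.erase e0, rest c a T e ^ (w e + 1) with hq'
  have hsplit : MvPolynomial.C κ * ∏ e ∈ Q, rest c a T e ^ (w e + 1) =
      MvPolynomial.X 0 * q' := by
    rw [← Finset.mul_prod_erase _ _ he0Q, hrest0, hw0, hq']
    ring
  have hmain : MvPolynomial.finSuccEquiv K (d + 1) (chg c a T hT (aeqn lam 1 w c a)) =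
      Polynomial.C (MvPolynomial.X 0 * q') *
        (∏ e ∈ Qᶜ, (Polynomial.X + Polynomial.C (MvPolynomial.C (al c T e 0)⁻¹ *
          rest c a T e)) ^ (w e + 1)) - 1 := by
    unfold aeqn
    rw [one_mul, map_sub, map_mul, map_one, map_prod, hC2, map_sub, map_mul, map_one, map_prod,
      hC]
    simp only [map_pow, finSucc_lf T hT]
    rw [← Finset.prod_mul_prod_compl Q, hprodQ, hprodP, ← hsplit, hκ]
    simp only [Polynomial.C_mul, MvPolynomial.C_mul]
    ring
  have hmain' : (MvPolynomial.finSuccEquiv K (d + 1)) ((chg c a T hT) (aeqn lam 1 w c a)) =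
    _ := hmain
  rw [hmain']
  obtain ⟨y, hy0, hy⟩ := exists_point hT hD (Q.erase e0)
    (fun e he => hQ1 e (Finset.mem_of_mem_erase he))
    (fun e he => by rw [hTe]; exact Finset.ne_of_mem_erase he)
  have hq'y : MvPolynomial.eval y q' ≠ 0 := by
    rw [hq', map_mul, MvPolynomial.eval_C, map_prod]
    refine mul_ne_zero hκ0 (Finset.prod_ne_zero_iff.2 fun e he => ?_)
    rw [map_pow]
    exact pow_ne_zero _ (hy e he)
  obtain ⟨h1, h2, h3⟩ := simple_zero q' hy0 hq'y
  have hmon : ∀ e ∈ Qᶜ, ((Polynomial.X + Polynomial.C (MvPolynomial.C (al c T e 0)⁻¹ *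
          rest c a T e)) ^ (w e + 1) : Polynomial (MvPolynomial (Fin (d + 1)) K)).Monic :=
    fun e _ => (Polynomial.monic_X_add_C _).pow _
  refine irr_sub_one (MvPolynomial.eval y) _ _ (Polynomial.monic_prod_of_monic _ _ hmon) ?_
    h1 h2 h3
  rw [Polynomial.natDegree_prod_of_monic _ _ hmon]
  have h0 : T 0 ∈ Qᶜ := by
    rw [Finset.mem_compl]
    intro h
    have h4 := hQ1 _ h
    rw [al_T T hT, if_pos rfl] at h4
    exact one_ne_zero h4
  refine Finset.sum_pos (fun e _ => ?_) ⟨_, h0⟩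
  rw [(Polynomial.monic_X_add_C _).natDegree_pow, Polynomial.natDegree_X_add_C]
  omega

theorem isDomain_ARing (hR : ∃ T : Fin (d + 1 + 1) → Fin (m + 1), (cm c T).det ≠ 0)
    (hD : Distinct c a) {w : Fin (m + 1) → ℕ} {e0 : Fin (m + 1)} (he0 : ∃ j, c e0 j ≠ 0)
    (hw0 : w e0 = 0) {lam : K} (hlam : lam ≠ 0) : IsDomain (ARing lam 1 w c a) := by
  have hirr := irreducible_aeqn hR hD he0 hw0 hlam
  have hp : (Ideal.span {aeqn lam 1 w c a}).IsPrime :=
    (Ideal.span_singleton_prime hirr.ne_zero).2 hirr.prime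
  exact Ideal.Quotient.isDomain _

end Dom

end Pool.Agent.TH577.UA
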