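import Pool.Agent.TH577.UA.Mil
import Pool.Agent.TH826.GA.Final
set_option autoImplicit false

/-!
Arrangements of hyperplanes `L_e = ∑_j c_{e,j} x_j - a_e` such that the maximal minors of the linear
parts are zero or units, the hypersurfaces `λ g ∏_e L_e ^ (w_e + 1) = 1`, `g` a polynomial with
integral coefficients, and symbols on them.
-/

namespace Pool.Agent.TH577.UA

open scoped WithZero

open Pool.Agent.TH826.MK (KQ symb Unramified unitPart)

open Pool.Agent.TH826.GA (cm lf al be ku coe_ku chg chg_lf al_T be_T)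

section Ring

variable {K : Type*} [Field K] {d m : ℕ}

/-- The equation `λ g ∏_e L_e ^ (w_e + 1) - 1`. -/
noncomputable def aeqn (lam : K) (g : MvPolynomial (Fin (d + 1)) K) (w : Fin (m + 1) → ℕ)
    (c : Fin (m + 1) → Fin (d + 1) → K) (a : Fin (m + 1) → K) : MvPolynomial (Fin (d + 1)) K :=
  MvPolynomial.C lam * (g * ∏ e, lf c a e ^ (w e + 1)) - 1

/-- The coordinate ring of the affine hypersurface `λ g ∏_e L_e ^ (w_e + 1) = 1`. -/
def ARing (lam : K) (g : MvPolynomial (Fin (d + 1)) K) (w : Fin (m + 1) → ℕ)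
    (c : Fin (m + 1) → Fin (d + 1) → K) (a : Fin (m + 1) → K) : Type _ :=
  MvPolynomial (Fin (d + 1)) K ⧸ Ideal.span {aeqn lam g w c a}

variable (lam : K) (g : MvPolynomial (Fin (d + 1)) K) (w : Fin (m + 1) → ℕ)
  (c : Fin (m + 1) → Fin (d + 1) → K) (a : Fin (m + 1) → K)

noncomputable instance : CommRing (ARing lam g w c a) :=
  Ideal.Quotient.commRing (Ideal.span {aeqn lam g w c a})

/-- The polynomials as functions on the hypersurface. -/
noncomputable def apol : MvPolynomial (Fin (d + 1)) K →+* ARing lam g w c a :=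
  Ideal.Quotient.mk (Ideal.span {aeqn lam g w c a})

/-- The constants as functions on the hypersurface. -/
noncomputable def acst : K →+* ARing lam g w c a := (apol lam g w c a).comp MvPolynomial.C

theorem apol_aeqn : apol lam g w c a (aeqn lam g w c a) = 0 :=
  Ideal.Quotient.eq_zero_iff_mem.2 (Ideal.subset_span rfl)

theorem prod_au : acst lam g w c a lam *
    (apol lam g w c a g * ∏ e, apol lam g w c a (lf c a e) ^ (w e + 1)) = 1 := by
  have h := apol_aeqn lam g w c a
  unfold aeqn at h
  rw [map_sub, map_mul, map_mul, map_one, map_prod, sub_eq_zero] at h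
  simp only [map_pow] at h
  rw [← h]
  rfl

theorem isUnit_au (e : Fin (m + 1)) : IsUnit (apol lam g w c a (lf c a e)) := by
  refine isUnit_of_dvd_one ?_
  rw [← prod_au lam g w c a]
  exact (dvd_pow_self _ (Nat.succ_ne_zero (w e))).trans (Dvd.dvd.mul_left (Dvd.dvd.mul_left
    (Finset.dvd_prod_of_mem (fun e => apol lam g w c a (lf c a e) ^ (w e + 1))
      (Finset.mem_univ e)) _) _)

/-- The unit `L_e` of the coordinate ring. -/
noncomputable def au (e : Fin (m + 1)) : (ARing lam g w c a)ˣ := (isUnit_au lam g w c a e).unit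

theorem coe_au (e : Fin (m + 1)) :
    (au lam g w c a e : ARing lam g w c a) = apol lam g w c a (lf c a e) := rfl

/-- The units `κ_l L_{p l} / L_{q l}`. -/
noncomputable def pent (κ : Fin (d + 1) → K) (p q : Fin (d + 1) → Fin (m + 1))
    (l : Fin (d + 1)) : (ARing lam g w c a)ˣ :=
  Units.map (acst lam g w c a : K →* ARing lam g w c a) (ku (κ l)) *
    (au lam g w c a (p l) / au lam g w c a (q l))

/-- The largest index `e` of the forms by which `L_{T i}` can be replaced, such that the linear
parts of the forms `T` stay linearly independent. -/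
noncomputable def hi (c : Fin (m + 1) → Fin (d + 1) → K) (T : Fin (d + 1) → Fin (m + 1))
    (i : Fin (d + 1)) : Fin (m + 1) :=
  open Classical in
    (Finset.univ.filter fun e => (cm c (Function.update T i e)).det ≠ 0).sup id

/-- The quotient of the determinants of the forms `T` with and without the replacement of `T i` by
`hi c T i`. -/
noncomputable def kap (c : Fin (m + 1) → Fin (d + 1) → K) (T : Fin (d + 1) → Fin (m + 1))
    (i : Fin (d + 1)) : K :=
  (cm c (Function.update T i (hi c T i))).det / (cm c T).det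

/-- The entries `κ_i L_{T i} / L_{hi i}` of the symbol of the basis `T`. -/
noncomputable def aent (T : Fin (d + 1) → Fin (m + 1)) (i : Fin (d + 1)) : (ARing lam g w c a)ˣ :=
  pent lam g w c a (kap c T) T (hi c T) i

end Ring

section lin

variable {K : Type*} [Field K] {d m : ℕ} {c : Fin (m + 1) → Fin (d + 1) → K}
  {a : Fin (m + 1) → K}

theorem hi_spec {T : Fin (d + 1) → Fin (m + 1)} (hT : (cm c T).det ≠ 0) (i : Fin (d + 1)) :
    (cm c (Function.update T i (hi c T i))).det ≠ 0 := by
  classical
  have hne : (Finset.univ.filter fun e => (cm c (Function.update T i e)).det ≠ 0).Nonempty :=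
    ⟨T i, Finset.mem_filter.2 ⟨Finset.mem_univ _, by rwa [Function.update_eq_self]⟩⟩
  obtain ⟨e, he, h⟩ := Finset.exists_mem_eq_sup _ hne (id : Fin (m + 1) → Fin (m + 1))
  have h2 : hi c T i = e := by
    unfold hi
    rw [← show id e = e from rfl, ← h]
  rw [h2]
  exact (Finset.mem_filter.1 he).2

theorem le_hi {T : Fin (d + 1) → Fin (m + 1)} {i : Fin (d + 1)} {e : Fin (m + 1)}
    (h : (cm c (Function.update T i e)).det ≠ 0) : e ≤ hi c T i := by
  classical
  unfold hi
  exact Finset.le_sup (f := id) (Finset.mem_filter.2 ⟨Finset.mem_univ _, h⟩)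

theorem det_update {T : Fin (d + 1) → Fin (m + 1)} (hT : (cm c T).det ≠ 0) (i : Fin (d + 1))
    (e : Fin (m + 1)) : (cm c (Function.update T i e)).det = al c T e i * (cm c T).det := by
  have h1 : cm c (Function.update T i e) =
      (cm c T).updateRow i (∑ k, al c T e k • (cm c T) k) := by
    have h2 : ∑ k, al c T e k • (cm c T) k = c e := by
      funext j
      rw [Finset.sum_apply]
      simp only [Pi.smul_apply, smul_eq_mul]
      unfold al
      simp only [Finset.sum_mul]
      rw [Finset.sum_comm]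
      have h3 : ∀ p, ∑ k, c e p * (cm c T)⁻¹ p k * cm c T k j = c e p * (if p = j then 1 else 0) := by
        intro p
        simp only [mul_assoc, ← Finset.mul_sum]
        have h := congrFun (congrFun (Matrix.nonsing_inv_mul (cm c T)
          (isUnit_iff_ne_zero.2 hT)) p) j
        rw [Matrix.mul_apply, Matrix.one_apply] at h
        rw [h]
      simp only [h3]
      simp
    rw [h2]
    ext p j
    rw [Matrix.updateRow_apply]
    unfold cm
    rw [Matrix.of_apply]
    by_cases hi : p = i
    · rw [if_pos hi, hi, Function.update_self]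
    · rw [if_neg hi, Function.update_of_ne hi]
      rfl
  rw [h1, Matrix.det_updateRow_sum, smul_eq_mul]

theorem kap_eq {T : Fin (d + 1) → Fin (m + 1)} (hT : (cm c T).det ≠ 0) (i : Fin (d + 1)) :
    kap c T i = al c T (hi c T i) i := by
  unfold kap
  rw [det_update hT, mul_div_cancel_right₀ _ hT]

theorem kap_ne {T : Fin (d + 1) → Fin (m + 1)} (hT : (cm c T).det ≠ 0) (i : Fin (d + 1)) :
    kap c T i ≠ 0 := div_ne_zero (hi_spec hT i) hT

theorem le_hi_of_al {T : Fin (d + 1) → Fin (m + 1)} (hT : (cm c T).det ≠ 0) {i : Fin (d + 1)}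
    {e : Fin (m + 1)} (h : al c T e i ≠ 0) : e ≤ hi c T i := by
  refine le_hi ?_
  rw [det_update hT]
  exact mul_ne_zero h hT

/-- the forms in terms of the forms `T` -/
theorem lf_eq {T : Fin (d + 1) → Fin (m + 1)} (hT : (cm c T).det ≠ 0) (e : Fin (m + 1)) :
    lf c a e = ∑ l, MvPolynomial.C (al c T e l) * lf c a (T l) + MvPolynomial.C (be c a T e) := by
  apply (chg c a T hT).injective
  have hC : ∀ x : K, chg c a T hT (MvPolynomial.C x) = MvPolynomial.C x := fun x =>
    (chg c a T hT).commutes x
  have hX : ∀ l, chg c a T hT (lf c a (T l)) = MvPolynomial.X l := by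
    intro l
    rw [chg_lf, be_T T hT]
    simp only [al_T T hT]
    rw [Finset.sum_eq_single l]
    · simp
    · intro i _ hi
      rw [if_neg (Ne.symm hi)]
      simp
    · intro h
      exact absurd (Finset.mem_univ l) h
  rw [chg_lf, map_add, map_sum, hC]
  simp only [map_mul, hC, hX]

/-- the coordinates in terms of the forms `T` -/
theorem X_eq {T : Fin (d + 1) → Fin (m + 1)} (hT : (cm c T).det ≠ 0) (j : Fin (d + 1)) :
    (MvPolynomial.X j : MvPolynomial (Fin (d + 1)) K) =
      ∑ i, MvPolynomial.C ((cm c T)⁻¹ j i) * (lf c a (T i) + MvPolynomial.C (a (T i))) := by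
  apply (chg c a T hT).injective
  have hC : ∀ x : K, chg c a T hT (MvPolynomial.C x) = MvPolynomial.C x := fun x =>
    (chg c a T hT).commutes x
  have hX : ∀ l, chg c a T hT (lf c a (T l)) = MvPolynomial.X l := by
    intro l
    rw [chg_lf, be_T T hT]
    simp only [al_T T hT]
    rw [Finset.sum_eq_single l]
    · simp
    · intro i _ hi
      rw [if_neg (Ne.symm hi)]
      simp
    · intro h
      exact absurd (Finset.mem_univ l) h
  have h0 : chg c a T hT (MvPolynomial.X j) = ∑ i, MvPolynomial.C ((cm c T)⁻¹ j i) *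
    (MvPolynomial.X i + MvPolynomial.C (a (T i))) := MvPolynomial.aeval_X _ _
  rw [h0, map_sum]
  simp only [map_mul, map_add, hC, hX]

end lin

section Unram

variable {K : Type*} [Field K] {d m : ℕ} {lam : K} {g : MvPolynomial (Fin (d + 1)) K}
  {w : Fin (m + 1) → ℕ} {c : Fin (m + 1) → Fin (d + 1) → K} {a : Fin (m + 1) → K}

/-- The hypotheses on the arrangement: integral coefficients, and the maximal minors of the linear
parts are zero or units. -/
structure UMod (c : Fin (m + 1) → Fin (d + 1) → K) (a : Fin (m + 1) → K) : Prop where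
  int_c : ∀ e j, IsIntegral ℤ (c e j)
  int_a : ∀ e, IsIntegral ℤ (a e)
  det_inv : ∀ T : Fin (d + 1) → Fin (m + 1), (cm c T).det = 0 ∨ IsIntegral ℤ ((cm c T).det)⁻¹

theorem UMod.det_int (hA : UMod c a) (T : Fin (d + 1) → Fin (m + 1)) :
    IsIntegral ℤ (cm c T).det :=
  IsIntegral.det fun _ _ => hA.int_c _ _

theorem UMod.inv_int (hA : UMod c a) (T : Fin (d + 1) → Fin (m + 1)) :
    IsIntegral ℤ ((cm c T).det)⁻¹ := by
  rcases hA.det_inv T with h | h
  · rw [h, inv_zero]
    exact isIntegral_zero
  · exact h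

theorem UMod.adj_int (hA : UMod c a) (T : Fin (d + 1) → Fin (m + 1)) (i j : Fin (d + 1)) :
    IsIntegral ℤ ((cm c T)⁻¹ i j) := by
  rw [Matrix.inv_def, Matrix.smul_apply, smul_eq_mul, Ring.inverse_eq_inv']
  refine (hA.inv_int T).mul ?_
  rw [Matrix.adjugate_apply]
  refine IsIntegral.det fun p q => ?_
  rw [Matrix.updateRow_apply]
  split_ifs
  · rw [Pi.single_apply]
    split_ifs
    · exact isIntegral_one
    · exact isIntegral_zero
  · exact hA.int_c _ _

theorem UMod.al_int (hA : UMod c a) (T : Fin (d + 1) → Fin (m + 1)) (e : Fin (m + 1))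
    (l : Fin (d + 1)) : IsIntegral ℤ (al c T e l) := by
  unfold al
  exact IsIntegral.sum _ fun j _ => (hA.int_c _ _).mul (hA.adj_int T _ _)

theorem UMod.be_int (hA : UMod c a) (T : Fin (d + 1) → Fin (m + 1)) (e : Fin (m + 1)) :
    IsIntegral ℤ (be c a T e) := by
  unfold be
  exact (IsIntegral.sum _ fun l _ => (hA.al_int T _ _).mul (hA.int_a _)).sub (hA.int_a _)

theorem UMod.kap_int (hA : UMod c a) (T : Fin (d + 1) → Fin (m + 1)) (i : Fin (d + 1)) :
    IsIntegral ℤ (kap c T i) := by
  unfold kap
  rw [div_eq_mul_inv]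
  exact (hA.det_int _).mul (hA.inv_int _)

theorem UMod.kap_inv (hA : UMod c a) (T : Fin (d + 1) → Fin (m + 1)) (i : Fin (d + 1)) :
    IsIntegral ℤ (kap c T i)⁻¹ := by
  unfold kap
  rw [inv_div, div_eq_mul_inv]
  exact (hA.det_int _).mul (hA.inv_int _)

variable {L : Type*} [Field L] (f : ARing lam g w c a →+* L)

/-- the composite map from the coefficient field -/
noncomputable def cL : K →+* L := f.comp (acst lam g w c a)

/-- the image of `x_j` -/
noncomputable def xL (j : Fin (d + 1)) : L := f (apol lam g w c a (MvPolynomial.X j))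

/-- the image of `L_e` -/
noncomputable def lL (e : Fin (m + 1)) : L := f (apol lam g w c a (lf c a e))

theorem map_au (e : Fin (m + 1)) : f (au lam g w c a e : ARing lam g w c a) = lL f e := rfl

theorem prod_lL : cL f lam * (f (apol lam g w c a g) * ∏ e, lL f e ^ (w e + 1)) = 1 := by
  have h := congrArg f (prod_au lam g w c a)
  rw [map_mul, map_mul, map_one, map_prod] at h
  simp only [map_pow] at h
  exact h

theorem lL_eq {T : Fin (d + 1) → Fin (m + 1)} (hT : (cm c T).det ≠ 0) (e : Fin (m + 1)) :
    lL f e = ∑ l, cL f (al c T e l) * lL f (T l) + cL f (be c a T e) := by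
  unfold lL
  rw [lf_eq (a := a) hT e, map_add, map_add, map_sum, map_sum]
  simp only [map_mul]
  rfl

theorem xL_eq {T : Fin (d + 1) → Fin (m + 1)} (hT : (cm c T).det ≠ 0) (j : Fin (d + 1)) :
    xL f j = ∑ i, cL f ((cm c T)⁻¹ j i) * (lL f (T i) + cL f (a (T i))) := by
  unfold xL
  rw [X_eq (a := a) hT j, map_sum, map_sum]
  simp only [map_mul, map_add]
  rfl

theorem val_poly_le (v : Valuation L ℤᵐ⁰) (hg : ∀ k, IsIntegral ℤ (g.coeff k))
    (hx : ∀ j, v (xL f j) ≤ 1) : v (f (apol lam g w c a g)) ≤ 1 := by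
  have hc : ∀ x : K, IsIntegral ℤ x → v (cL f x) ≤ 1 := fun x hx =>
    Pool.Agent.TH826.MK.val_le_one_of_integral v (map_isIntegral_int _ hx)
  have e : f (apol lam g w c a g) = ∑ k ∈ g.support, cL f (g.coeff k) * ∏ j, xL f j ^ k j := by
    have h1 : f (apol lam g w c a g) = MvPolynomial.eval₂ (cL f) (xL f) g := by
      have h2 : (f.comp (apol lam g w c a)) = MvPolynomial.eval₂Hom (cL f) (xL f) := by
        refine MvPolynomial.ringHom_ext (fun x => ?_) fun j => ?_
        · simp only [MvPolynomial.coe_eval₂Hom, MvPolynomial.eval₂_C]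
          rfl
        · simp only [MvPolynomial.coe_eval₂Hom, MvPolynomial.eval₂_X]
          rfl
      exact congrArg (fun F : MvPolynomial (Fin (d + 1)) K →+* L => F g) h2
    rw [h1, MvPolynomial.eval₂_eq']
  rw [e]
  refine Valuation.map_sum_le v fun k _ => ?_
  rw [map_mul, map_prod]
  refine mul_le_one' (hc _ (hg k)) (Finset.prod_le_one' fun j _ => ?_)
  rw [map_pow]
  exact pow_le_one' (hx j) _

/-- The symbols are unramified at all discrete valuations. -/
theorem symb_mem_unitPart (hlam : IsIntegral ℤ lam) (hg : ∀ k, IsIntegral ℤ (g.coeff k))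
    (hA : UMod c a) (v : Valuation L ℤᵐ⁰) {T : Fin (d + 1) → Fin (m + 1)}
    (hT : (cm c T).det ≠ 0) :
    symb (fun l => Units.map (f : ARing lam g w c a →* L) (aent lam g w c a T l)) ∈
      unitPart v (d + 1) := by
  classical
  have hc : ∀ x : K, IsIntegral ℤ x → v (cL f x) ≤ 1 := fun x hx =>
    Pool.Agent.TH826.MK.val_le_one_of_integral v (map_isIntegral_int _ hx)
  have hkap : ∀ k, v (cL f (kap c T k)) = 1 := by
    intro k
    refine le_antisymm (hc _ (hA.kap_int T k)) ?_
    have h1 := hc _ (hA.kap_inv T k)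
    rw [map_inv₀, map_inv₀] at h1
    have h0 : cL f (kap c T k) ≠ 0 := (map_ne_zero _).2 (kap_ne hT k)
    rwa [inv_le_one₀ (by rw [Valuation.pos_iff]; exact h0)] at h1
  set z : Fin (d + 1) → Lˣ := fun k => Units.map (f : ARing lam g w c a →* L)
    (Units.map (acst lam g w c a : K →* ARing lam g w c a) (ku (kap c T k)) * au lam g w c a (T k))
    with hz
  set b : Fin (m + 1) → Lˣ := fun e => Units.map (f : ARing lam g w c a →* L) (au lam g w c a e)
    with hb
  have hwv : ∀ e, (b e : L) = lL f e := fun e => rfl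
  have hzv : ∀ k, (z k : L) = cL f (kap c T k) * lL f (T k) := by
    intro k
    rw [hz]
    simp only [map_mul, Units.val_mul]
    congr 1
    show f (acst lam g w c a (ku (kap c T k) : K)) = _
    rw [coe_ku (kap_ne hT k)]
    rfl
  have hvz : ∀ k, v (z k : L) = v (lL f (T k)) := by
    intro k
    rw [hzv, map_mul, hkap, one_mul]
  have hent : ∀ k, Units.map (f : ARing lam g w c a →* L) (aent lam g w c a T k) =
      z k / b (hi c T k) := by
    intro k
    unfold aent pent
    rw [hz, hb]
    simp only [map_mul, map_div]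
    rw [mul_div_assoc]
  by_cases hB : ∃ k, 1 < v (lL f (T k))
  · -- a pole
    obtain ⟨k1, hk1⟩ := hB
    obtain ⟨k0, hk0, hmax⟩ := Finset.exists_max_image
      (Finset.univ.filter fun k => 1 < v (lL f (T k))) (fun k => hi c T k)
      ⟨k1, Finset.mem_filter.2 ⟨Finset.mem_univ _, hk1⟩⟩
    have hk0v : 1 < v (lL f (T k0)) := (Finset.mem_filter.1 hk0).2
    set J : Finset (Fin (d + 1)) := Finset.univ.filter fun k => hi c T k = hi c T k0 with hJ
    refine mem_unitPart_of_block v _ J z (b (hi c T k0)) (fun k hk => ?_) ?_ (l := k0)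
      (Finset.mem_filter.2 ⟨Finset.mem_univ _, rfl⟩) (by rw [hvz]; exact hk0v)
    · rw [hent, (Finset.mem_filter.1 hk).2]
    · have e1 : (b (hi c T k0) : L) - ∑ k ∈ J, (z k : L) =
          ∑ k ∈ Jᶜ, cL f (al c T (hi c T k0) k) * lL f (T k) +
            cL f (be c a T (hi c T k0)) := by
        rw [hwv, lL_eq f hT, ← Finset.sum_add_sum_compl J]
        have e2 : ∀ k ∈ J, (z k : L) = cL f (al c T (hi c T k0) k) * lL f (T k) := by
          intro k hk
          rw [hzv, kap_eq hT, (Finset.mem_filter.1 hk).2]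
        rw [Finset.sum_congr rfl e2]
        ring
      rw [e1]
      refine (v.map_add _ _).trans (max_le ?_ (hc _ (hA.be_int T _)))
      refine Valuation.map_sum_le v fun k hk => ?_
      by_cases hal : al c T (hi c T k0) k = 0
      · rw [hal, map_zero, zero_mul, map_zero]
        exact zero_le_one
      · have h1 : hi c T k0 ≤ hi c T k := le_hi_of_al hT hal
        have h2 : hi c T k ≠ hi c T k0 := fun h =>
          (Finset.mem_compl.1 hk) (Finset.mem_filter.2 ⟨Finset.mem_univ _, h⟩)
        have h3 : ¬ 1 < v (lL f (T k)) := fun h =>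
          absurd (hmax k (Finset.mem_filter.2 ⟨Finset.mem_univ _, h⟩))
            (not_le.2 (lt_of_le_of_ne h1 h2.symm))
        rw [map_mul]
        exact mul_le_one' (hc _ (hA.al_int T _ _)) (not_lt.1 h3)
  · push Not at hB
    have hle : ∀ e, v (lL f e) ≤ 1 := by
      intro e
      rw [lL_eq f hT e]
      refine (v.map_add _ _).trans (max_le ?_ (hc _ (hA.be_int T _)))
      refine Valuation.map_sum_le v fun k _ => ?_
      rw [map_mul]
      exact mul_le_one' (hc _ (hA.al_int T _ _)) (hB k)
    have hx : ∀ j, v (xL f j) ≤ 1 := by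
      intro j
      rw [xL_eq f hT j]
      refine Valuation.map_sum_le v fun i _ => ?_
      rw [map_mul]
      refine mul_le_one' (hc _ (hA.adj_int T _ _)) ?_
      exact (v.map_add _ _).trans (max_le (hle _) (hc _ (hA.int_a _)))
    have hgv := val_poly_le f v hg hx
    have hone := congrArg v (prod_lL f)
    rw [map_mul, map_mul, map_one, map_prod] at hone
    have hB : ∀ e, v (lL f e) = 1 := by
      intro e
      refine le_antisymm (hle e) ?_
      rw [← hone, ← Finset.mul_prod_erase _ _ (Finset.mem_univ e)]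
      have h1 : ∏ x ∈ Finset.univ.erase e, v (lL f x ^ (w x + 1)) ≤ 1 :=
        Finset.prod_le_one' fun j _ => by
          rw [map_pow]
          exact pow_le_one' (hle j) _
      have h2 : v (lL f e ^ (w e + 1)) ≤ v (lL f e) := by
        rw [map_pow, pow_succ]
        exact mul_le_of_le_one_left' (pow_le_one' (hle e) _)
      calc v (cL f lam) * (v (f (apol lam g w c a g)) *
            (v (lL f e ^ (w e + 1)) * ∏ x ∈ Finset.univ.erase e, v (lL f x ^ (w x + 1))))
          ≤ 1 * (1 * (v (lL f e) * 1)) :=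
            mul_le_mul' (hc _ hlam) (mul_le_mul' hgv (mul_le_mul' h2 h1))
        _ = v (lL f e) := by rw [one_mul, one_mul, mul_one]
    refine Submodule.subset_span ⟨_, fun l => ?_, rfl⟩
    rw [hent, Units.val_div_eq_div_val, map_div₀, hvz, hwv, hB, hB, div_one]

theorem symb_mem_unramified (hlam : IsIntegral ℤ lam) (hg : ∀ k, IsIntegral ℤ (g.coeff k))
    (hA : UMod c a) {T : Fin (d + 1) → Fin (m + 1)} (hT : (cm c T).det ≠ 0) :
    KQ.map (d + 1) f (symb (aent lam g w c a T)) ∈ Unramified L (d + 1) := by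
  rw [KQ.map_symb]
  unfold Unramified
  simp only [Submodule.mem_iInf]
  intro v _
  exact symb_mem_unitPart f hlam hg hA v hT

end Unram

end Pool.Agent.TH577.UA
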