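import Pool.Agent.TH577.UA.Tor
set_option autoImplicit false

/-!
The leading coefficients of the regulators: the bases without broken circuits.
-/

namespace Pool.Agent.TH577.UA

open Pool.Agent.TH826.GA (cm lf al be ku coe_ku chg chg_lf al_T be_T vtx eval_vtx)

section tri

theorem det_ne_zero_of_tri {I : Type*} [Fintype I] [DecidableEq I] (h : I → ℕ)
    (M : Matrix I I ℝ) (h1 : ∀ i, M i i ≠ 0) (h2 : ∀ i j, M i j ≠ 0 → i = j ∨ h j < h i) :
    M.det ≠ 0 := by
  intro h0
  obtain ⟨v, hv, hM⟩ := Matrix.exists_mulVec_eq_zero_iff.2 h0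
  have hne : ∃ i, v i ≠ 0 := by
    by_contra hcon
    push Not at hcon
    exact hv (funext hcon)
  obtain ⟨i1, hi1⟩ := hne
  obtain ⟨i, hi, hmin⟩ := Finset.exists_min_image (Finset.univ.filter fun i => v i ≠ 0) h
    ⟨i1, Finset.mem_filter.2 ⟨Finset.mem_univ _, hi1⟩⟩
  have hvi : v i ≠ 0 := (Finset.mem_filter.1 hi).2
  have h3 : ∑ j, M i j * v j = 0 := congrFun hM i
  rw [Finset.sum_eq_single i] at h3
  · exact mul_ne_zero (h1 i) hvi h3
  · intro j _ hj
    by_cases hMij : M i j = 0
    · rw [hMij, zero_mul]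
    · rcases h2 i j hMij with h4 | h4
      · exact absurd h4.symm hj
      · have h5 : v j = 0 := by
          by_contra h6
          exact absurd (hmin j (Finset.mem_filter.2 ⟨Finset.mem_univ _, h6⟩)) (not_le.2 h4)
        rw [h5, mul_zero]
  · intro h
    exact absurd (Finset.mem_univ i) h

end tri

section comb

variable {K : Type*} [Field K] {d m : ℕ}

/-- The bases `T_0 < ... < T_d` (the linear parts of the forms `T` are linearly independent) such
that every form of `T` can be replaced by a later form, and every other form through the vertex of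
`T` can replace a later form of `T`. -/
def Nbc (c : Fin (m + 1) → Fin (d + 1) → K) (a : Fin (m + 1) → K)
    (T : Fin (d + 1) → Fin (m + 1)) : Prop :=
  StrictMono T ∧ (cm c T).det ≠ 0 ∧
  (∀ i, ∃ e, T i < e ∧ (cm c (Function.update T i e)).det ≠ 0) ∧
  ∀ e, (∀ j, T j ≠ e) → ∑ j, c e j * vtx c a T j = a e →
    ∃ i, e < T i ∧ (cm c (Function.update T i e)).det ≠ 0

variable {c : Fin (m + 1) → Fin (d + 1) → K} {a : Fin (m + 1) → K}

theorem Nbc.lt_hi {T : Fin (d + 1) → Fin (m + 1)} (h : Nbc c a T) (i : Fin (d + 1)) :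
    T i < hi c T i := by
  obtain ⟨e, h1, h2⟩ := h.2.2.1 i
  exact h1.trans_le (le_hi h2)

theorem Nbc.le_T_top {T : Fin (d + 1) → Fin (m + 1)} (h : Nbc c a T) {e : Fin (m + 1)}
    (hbe : be c a T e = 0) : e ≤ T (top c T e) := by
  by_cases h1 : ∃ j, T j = e
  · obtain ⟨j, rfl⟩ := h1
    rw [top_T h.2.1]
  · push Not at h1
    obtain ⟨i, h2, h3⟩ := h.2.2.2 e h1 (by
      rw [eval_vtx]
      exact sub_eq_zero.1 hbe)
    rw [det_update h.2.1] at h3
    have h4 : al c T e i ≠ 0 := left_ne_zero_of_mul h3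
    exact h2.le.trans (h.1.monotone (le_top h4))

/-- the matrix of exponents -/
noncomputable def emat (c : Fin (m + 1) → Fin (d + 1) → K) (a : Fin (m + 1) → K)
    (T e : Fin (d + 1) → Fin (m + 1)) : Matrix (Fin (d + 1)) (Fin (d + 1)) ℝ :=
  Matrix.of fun l j => (mu c a T (e l) j : ℝ)

theorem lead_expand (T p q : Fin (d + 1) → Fin (m + 1)) :
    lead c a T p q = ∑ s : Finset (Fin (d + 1)), (∏ l, if l ∈ s then (1 : ℝ) else -1) *
      (emat c a T fun l => if l ∈ s then p l else q l).det := by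
  classical
  set A : Fin (d + 1) → Fin (d + 1) → ℝ := fun l j => (mu c a T (p l) j : ℝ) with hA
  set B : Fin (d + 1) → Fin (d + 1) → ℝ := fun l j => -(mu c a T (q l) j : ℝ) with hB
  have h := (Matrix.detRowAlternating (n := Fin (d + 1)) (R := ℝ)).toMultilinearMap.map_add_univ
    A B
  have h1 : lead c a T p q =
      (Matrix.detRowAlternating (n := Fin (d + 1)) (R := ℝ)).toMultilinearMap (A + B) := by
    unfold lead
    show Matrix.det _ = Matrix.det (Matrix.of (A + B))
    congr 1
  rw [h1, h]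
  refine Finset.sum_congr rfl fun s _ => ?_
  show Matrix.det (Matrix.of (s.piecewise A B)) = _
  rw [← Matrix.det_mul_column]
  congr 1
  ext l j
  simp only [Matrix.of_apply, emat]
  by_cases hl : l ∈ s
  · rw [Finset.piecewise_eq_of_mem _ _ _ hl, if_pos hl, if_pos hl, one_mul]
  · rw [Finset.piecewise_eq_of_notMem _ _ _ hl, if_neg hl, if_neg hl, neg_one_mul]

theorem emat_ne {T e : Fin (d + 1) → Fin (m + 1)} (h : (emat c a T e).det ≠ 0) :
    (∀ l, be c a T (e l) = 0) ∧ Function.Injective fun l => top c T (e l) := by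
  have h1 : ∀ l, be c a T (e l) = 0 := by
    intro l
    by_contra hl
    apply h
    refine Matrix.det_eq_zero_of_row_eq_zero l fun j => ?_
    unfold emat mu
    rw [Matrix.of_apply, if_neg hl]
    simp
  refine ⟨h1, fun k l hkl => ?_⟩
  by_contra hne
  apply h
  refine Matrix.det_zero_of_row_eq hne ?_
  funext j
  unfold emat mu
  rw [Matrix.of_apply, Matrix.of_apply, if_pos (h1 k), if_pos (h1 l)]
  have h2 : top c T (e k) = top c T (e l) := hkl
  rw [h2]

theorem Nbc.sum_le {T : Fin (d + 1) → Fin (m + 1)} (hT : Nbc c a T)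
    {e : Fin (d + 1) → Fin (m + 1)} (h : (emat c a T e).det ≠ 0) :
    ∑ l, (e l : ℕ) ≤ ∑ l, (T l : ℕ) := by
  obtain ⟨h1, h2⟩ := emat_ne h
  have h3 : ∑ l, (T (top c T (e l)) : ℕ) = ∑ l, (T l : ℕ) :=
    (Function.Injective.bijective_of_finite h2).sum_comp fun l => (T l : ℕ)
  rw [← h3]
  exact Finset.sum_le_sum fun l _ => hT.le_T_top (h1 l)

theorem Nbc.mem_of_sum {T : Fin (d + 1) → Fin (m + 1)} (hT : Nbc c a T)
    {e : Fin (d + 1) → Fin (m + 1)} (h : (emat c a T e).det ≠ 0)
    (hs : ∑ l, (T l : ℕ) ≤ ∑ l, (e l : ℕ)) (l : Fin (d + 1)) : e l = T (top c T (e l)) := by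
  obtain ⟨h1, h2⟩ := emat_ne h
  have h3 : ∑ l, (T (top c T (e l)) : ℕ) = ∑ l, (T l : ℕ) :=
    (Function.Injective.bijective_of_finite h2).sum_comp fun l => (T l : ℕ)
  refine le_antisymm (hT.le_T_top (h1 l)) ?_
  by_contra h4
  push Not at h4
  have h5 : ∑ l, (e l : ℕ) < ∑ l, (T (top c T (e l)) : ℕ) :=
    Finset.sum_lt_sum (fun l _ => hT.le_T_top (h1 l)) ⟨l, Finset.mem_univ l, h4⟩
  omega

theorem lead_other {T T' : Fin (d + 1) → Fin (m + 1)} (hT : Nbc c a T) (hT' : Nbc c a T')
    (h : lead c a T T' (hi c T') ≠ 0) :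
    T = T' ∨ ∑ l, (T' l : ℕ) < ∑ l, (T l : ℕ) := by
  classical
  rw [lead_expand] at h
  obtain ⟨s, -, hs⟩ := Finset.exists_ne_zero_of_sum_ne_zero h
  have hs' := right_ne_zero_of_mul hs
  set e : Fin (d + 1) → Fin (m + 1) := fun l => if l ∈ s then T' l else hi c T' l with he
  have hle : ∀ l, (T' l : ℕ) ≤ e l := by
    intro l
    simp only [he]
    split_ifs
    · exact le_rfl
    · exact (hT'.lt_hi l).le
  have h1 := hT.sum_le hs'
  have h2 : ∑ l, (T' l : ℕ) ≤ ∑ l, (e l : ℕ) := Finset.sum_le_sum fun l _ => hle l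
  rcases (h2.trans h1).lt_or_eq with h3 | h3
  · exact Or.inr h3
  · left
    have h4 : ∀ l, e l = T' l := by
      intro l
      apply Fin.ext
      by_contra hne
      have h5 : ∑ l, (T' l : ℕ) < ∑ l, (e l : ℕ) :=
        Finset.sum_lt_sum (fun l _ => hle l) ⟨l, Finset.mem_univ l,
          lt_of_le_of_ne (hle l) (Ne.symm hne)⟩
      omega
    have h5 : ∀ l, ∃ k, T k = T' l := by
      intro l
      refine ⟨top c T (e l), ?_⟩
      rw [← hT.mem_of_sum hs' (by omega) l, h4]
    choose π hπ using h5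
    have hπi : Function.Injective π := by
      intro k l hkl
      apply hT'.1.injective
      rw [← hπ k, ← hπ l, hkl]
    refine (hT.1.range_inj hT'.1).1 ?_
    apply Set.Subset.antisymm
    · rintro _ ⟨k, rfl⟩
      obtain ⟨l, rfl⟩ := (Finite.injective_iff_surjective.1 hπi) k
      exact ⟨l, (hπ l).symm⟩
    · rintro _ ⟨l, rfl⟩
      exact ⟨π l, hπ l⟩

theorem lead_same {T : Fin (d + 1) → Fin (m + 1)} (hT : Nbc c a T) :
    lead c a T T (hi c T) ≠ 0 := by
  classical
  rw [lead_expand, Finset.sum_eq_single Finset.univ]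
  · have h1 : (emat c a T fun l => if l ∈ Finset.univ then T l else hi c T l).det = 1 := by
      rw [Matrix.det_of_isUpperTriangular]
      · refine Finset.prod_eq_one fun i _ => ?_
        unfold emat mu
        simp only [Finset.mem_univ, if_true, Matrix.of_apply]
        rw [if_pos (be_T T hT.2.1 i), top_T hT.2.1]
        unfold stp
        rw [if_pos le_rfl]
        simp
      · intro i j hij
        have hij' : j < i := hij
        unfold emat mu
        simp only [Finset.mem_univ, if_true, Matrix.of_apply]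
        rw [if_pos (be_T T hT.2.1 i), top_T hT.2.1]
        unfold stp
        rw [if_neg (not_le.2 hij')]
        simp
    rw [h1, mul_one]
    simp
  · intro s _ hs
    by_contra hne
    have hs' := right_ne_zero_of_mul hne
    set e : Fin (d + 1) → Fin (m + 1) := fun l => if l ∈ s then T l else hi c T l with he
    have h1 := hT.sum_le hs'
    obtain ⟨l0, hl0⟩ : ∃ l, l ∉ s := by
      by_contra hcon
      push Not at hcon
      exact hs (Finset.eq_univ_iff_forall.2 hcon)
    have hle : ∀ l, (T l : ℕ) ≤ e l := by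
      intro l
      simp only [he]
      split_ifs
      · exact le_rfl
      · exact (hT.lt_hi l).le
    have h2 : ∑ l, (T l : ℕ) < ∑ l, (e l : ℕ) := by
      refine Finset.sum_lt_sum (fun l _ => hle l) ⟨l0, Finset.mem_univ l0, ?_⟩
      simp only [he, if_neg hl0]
      exact hT.lt_hi l0
    omega
  · intro h
    exact absurd (Finset.mem_univ _) h

end comb

end Pool.Agent.TH577.UA
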