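import Pool.Agent.TH577.UA.Comb
set_option autoImplicit false

/-!
The regulators of the symbols of the bases without broken circuits, for large `λ`.
-/

namespace Pool.Agent.TH577.UA

open Pool.Agent.TH826.MK

open Pool.Agent.TH826.GA (cm lf al be ku coe_ku chg chg_lf al_T be_T vtx eval_vtx)

open Pool.Agent.TH826.SX (det_ne_zero_near)

section main

variable {K : Type*} [Field K] {d m : ℕ}

/-- the index set -/
def Ix (c : Fin (m + 1) → Fin (d + 1) → K) (a : Fin (m + 1) → K) : Type :=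
  {T : Fin (d + 1) → Fin (m + 1) // Nbc c a T}

noncomputable instance (c : Fin (m + 1) → Fin (d + 1) → K) (a : Fin (m + 1) → K) :
    Fintype (Ix c a) := by
  classical
  exact inferInstanceAs (Fintype {T : Fin (d + 1) → Fin (m + 1) // Nbc c a T})

noncomputable instance (c : Fin (m + 1) → Fin (d + 1) → K) (a : Fin (m + 1) → K) :
    DecidableEq (Ix c a) := Classical.decEq _

variable {c : Fin (m + 1) → Fin (d + 1) → K} {a : Fin (m + 1) → K}
  {g : MvPolynomial (Fin (d + 1)) K} {w : Fin (m + 1) → ℕ}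

theorem exists_tori (σ : K →+* ℂ) (hD : Distinct c a)
    (hg : ∀ T : Fin (d + 1) → Fin (m + 1), (cm c T).det ≠ 0 →
      MvPolynomial.eval (vtx c a T) g ≠ 0) :
    ∃ C : ℝ, 1 ≤ C ∧ ∀ lam : K, C ≤ ‖σ lam‖ →
      ∃ Γ : Ix c a → Torus (ARing lam g w c a) d,
        (∀ T θ x, (Γ T).e θ (acst lam g w c a x) = σ x) ∧
        (Matrix.of fun T T' : Ix c a =>
          (Γ T).reg (symb (aent lam g w c a T'.1))).det ≠ 0 := by
  classical
  have hex := fun T : Ix c a => by
    haveI : Nonempty (Ix c a) := ⟨T⟩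
    exact exists_torus (g := g) (w := w) (a := a) σ T.2.2.1 hD (hg T.1 T.2.2.1)
      (fun T' : Ix c a => kap c T'.1) (fun T' l => kap_ne T'.2.2.1 l) (fun T' => T'.1)
      (fun T' => hi c T'.1)
  choose D hD0 hT using hex
  set M0 : Matrix (Ix c a) (Ix c a) ℝ := Matrix.of fun T T' =>
    D T * lead c a T.1 T'.1 (hi c T'.1) with hM0
  have hM : M0.det ≠ 0 := by
    have h1 : M0.det = (∏ T, D T) *
        (Matrix.of fun T T' : Ix c a => lead c a T.1 T'.1 (hi c T'.1)).det := by
      rw [← Matrix.det_mul_column]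
      rfl
    rw [h1]
    refine mul_ne_zero (Finset.prod_ne_zero_iff.2 fun T _ => hD0 T) ?_
    refine det_ne_zero_of_tri (fun T : Ix c a => ∑ l, (T.1 l : ℕ)) _ (fun T => ?_)
      (fun T T' h => ?_)
    · rw [Matrix.of_apply]
      exact lead_same T.2
    · rw [Matrix.of_apply] at h
      rcases lead_other T.2 T'.2 h with h1 | h1
      · exact Or.inl (Subtype.ext h1)
      · exact Or.inr h1
  obtain ⟨δ, hδ, hdet⟩ := det_ne_zero_near M0 hM
  choose Λ hΛ1 hΛ using fun T : Ix c a => hT T (δ / 2) (by linarith)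
  set C : ℝ := ∑ T, |Λ T| + 2 with hC
  have hsum : 0 ≤ ∑ T, |Λ T| := Finset.sum_nonneg fun J _ => abs_nonneg _
  have hΛC : ∀ T, Λ T ≤ C := by
    intro T
    have h1 := Finset.single_le_sum (f := fun T => |Λ T|) (fun T _ => abs_nonneg _)
      (Finset.mem_univ T)
    have h2 := le_abs_self (Λ T)
    have h3 : |Λ T| ≤ ∑ T, |Λ T| := h1
    linarith
  refine ⟨C, by linarith, fun lam hlam => ?_⟩
  choose Γ hΓ1 hΓ2 using fun T => hΛ T lam ((hΛC T).trans hlam)
  refine ⟨Γ, hΓ1, ?_⟩
  have hs : -Real.log ‖σ lam‖ ≠ 0 := by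
    have : 0 < Real.log ‖σ lam‖ := Real.log_pos (by linarith)
    linarith
  set s : ℝ := -Real.log ‖σ lam‖ with hsdef
  have h1 : (Matrix.of fun T T' : Ix c a =>
      (Γ T).reg (symb (aent lam g w c a T'.1)) / s).det ≠ 0 := by
    refine hdet _ fun T T' => ?_
    rw [hM0, Matrix.of_apply, Matrix.of_apply, mul_comm]
    exact lt_of_le_of_lt (hΓ2 T T') (show δ / 2 < δ by linarith)
  have h2 : (Matrix.of fun T T' : Ix c a =>
      (Γ T).reg (symb (aent lam g w c a T'.1))) =
      s • (Matrix.of fun T T' : Ix c a =>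
        (Γ T).reg (symb (aent lam g w c a T'.1)) / s) := by
    ext T T'
    rw [Matrix.smul_apply, Matrix.of_apply, Matrix.of_apply, smul_eq_mul]
    field_simp
  rw [h2, Matrix.det_smul]
  exact mul_ne_zero (pow_ne_zero _ hs) h1

end main

end Pool.Agent.TH577.UA
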