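import Pool.Agent.TH826.SX.Local
set_option autoImplicit false

/-!
Small tori in the complex varieties `∏_e H_e = η` at a point where the `H_e` are products of
monomials and of functions without zeros.
-/

namespace Pool.Agent.TH577.UA

open Filter Topology

open Pool.Agent.TH826.MK

open Pool.Agent.TH826.SX (circ_ne_zero good_circ lw_circ exists_nice Nice)

section sol

variable {d : ℕ}

theorem exists_sol (Q : (Fin d → ℂ) × ℂ → ℂ) (hQ : ContDiffAt ℂ 2 Q 0) (h0 : Q 0 ≠ 0) :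
    ∃ Y : (Fin d → ℂ) × ℂ → ℂ, ContDiffAt ℂ 2 Y 0 ∧ Y 0 = 0 ∧
      ∀ᶠ ζ in 𝓝 (0 : (Fin d → ℂ) × ℂ), Y ζ * Q (ζ.1, Y ζ) = ζ.2 := by
  set Φ : (Fin d → ℂ) × ℂ → (Fin d → ℂ) × ℂ := fun u => (u.1, u.2 * Q u) with hΦ
  have hΦc : ContDiffAt ℂ 2 Φ 0 := contDiffAt_fst.prodMk (contDiffAt_snd.mul hQ)
  have hΦ0 : Φ 0 = 0 := by simp [hΦ]
  let e : ((Fin d → ℂ) × ℂ) ≃L[ℂ] ((Fin d → ℂ) × ℂ) :=
    (ContinuousLinearEquiv.refl ℂ (Fin d → ℂ)).prodCongr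
      (ContinuousLinearEquiv.unitsEquivAut ℂ (Units.mk0 (Q 0) h0))
  have hΦd : HasFDerivAt Φ (e : ((Fin d → ℂ) × ℂ) →L[ℂ] ((Fin d → ℂ) × ℂ)) 0 := by
    have h1 := (hasFDerivAt_snd (𝕜 := ℂ) (p := (0 : (Fin d → ℂ) × ℂ))).mul
      (hQ.differentiableAt (by norm_num)).hasFDerivAt
    refine (hasFDerivAt_fst.prodMk h1).congr_fderiv ?_
    refine ContinuousLinearMap.ext fun u => ?_
    refine Prod.ext ?_ ?_
    · simp [e]
    · simp [e]
      ring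
  have hn : (2 : WithTop ℕ∞) ≠ 0 := by norm_num
  set Ψ := hΦc.localInverse hΦd hn with hΨ
  have hΨc : ContDiffAt ℂ 2 Ψ 0 := by
    have := hΦc.to_localInverse hΦd hn
    rwa [hΦ0] at this
  have hΨ0 : Ψ 0 = 0 := by
    have := hΦc.localInverse_apply_image hΦd hn
    rwa [hΦ0] at this
  have hright : ∀ᶠ ζ in 𝓝 (0 : (Fin d → ℂ) × ℂ), Φ (Ψ ζ) = ζ := by
    have := (hΦc.hasStrictFDerivAt' hΦd hn).eventually_right_inverse
    rwa [hΦ0] at this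
  refine ⟨fun ζ => (Ψ ζ).2, hΨc.snd, by show (Ψ 0).2 = 0; rw [hΨ0]; rfl, ?_⟩
  filter_upwards [hright] with ζ hζ
  have h0 : ((Ψ ζ).1, (Ψ ζ).2 * Q (Ψ ζ)) = ζ := hζ
  have h1 : (Ψ ζ).1 = ζ.1 := (Prod.ext_iff.1 h0).1
  have h2 : (Ψ ζ).2 * Q (Ψ ζ) = ζ.2 := (Prod.ext_iff.1 h0).2
  rw [← h1]
  exact h2

/-- a root of a function without zeros -/
theorem exists_root (Q : (Fin d → ℂ) × ℂ → ℂ) (hQ : ContDiffAt ℂ 2 Q 0) (h0 : Q 0 ≠ 0) {q : ℕ}
    (hq : 0 < q) : ∃ R : (Fin d → ℂ) × ℂ → ℂ, ContDiffAt ℂ 2 R 0 ∧ R 0 ≠ 0 ∧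
      ∀ᶠ u in 𝓝 (0 : (Fin d → ℂ) × ℂ), R u ^ q = Q u := by
  obtain ⟨κ, hκ⟩ := IsAlgClosed.exists_pow_nat_eq (Q 0) hq
  have hκ0 : κ ≠ 0 := by
    rintro rfl
    rw [zero_pow hq.ne'] at hκ
    exact h0 hκ.symm
  have hqc : (q : ℂ) ≠ 0 := by exact_mod_cast hq.ne'
  have h1 : Q 0 / Q 0 = 1 := div_self h0
  have hlog : ContDiffAt ℂ 2 (fun u => Complex.log (Q u / Q 0)) 0 := by
    refine ContDiffAt.comp (g := Complex.log) (0 : (Fin d → ℂ) × ℂ) ?_ (hQ.div_const _)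
    rw [h1]
    exact Complex.contDiffAt_log Complex.one_mem_slitPlane
  refine ⟨fun u => κ * Complex.exp (Complex.log (Q u / Q 0) / q), ?_, ?_, ?_⟩
  · exact contDiffAt_const.mul (hlog.div_const _).cexp
  · exact mul_ne_zero hκ0 (Complex.exp_ne_zero _)
  · filter_upwards [hQ.continuousAt.eventually_ne h0] with u hu
    rw [mul_pow, hκ, ← Complex.exp_nat_mul, mul_div_cancel₀ _ hqc,
      Complex.exp_log (div_ne_zero hu h0), mul_div_cancel₀ _ h0]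

end sol

section loc

variable {d : ℕ}

theorem good_pow {g : (Fin d → ℝ) → ℂ} (hg : Good g) (n : ℕ) : Good fun θ => g θ ^ n :=
  ⟨hg.smooth.pow n, fun θ => pow_ne_zero _ (hg.ne_zero θ)⟩

theorem lw_pow {g : (Fin d → ℝ) → ℂ} (hg : Good g) (n : ℕ) (i : Fin d) (θ : Fin d → ℝ) :
    lw (fun θ => g θ ^ n) i θ = n * lw g i θ := by
  induction n with
  | zero =>
    simp only [pow_zero]
    rw [lw_const]
    simp
  | succ n ih =>
    simp only [pow_succ]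
    rw [lw_mul (good_pow hg n) hg, ih]
    push_cast
    ring

/-- the torus `ζ_k = z_k ^ q`, `|z_k| = ρ`, `ω ∏ z_k ^ N_k = η` -/
noncomputable def zn (q : ℕ) (N : Fin d → ℕ) (ρ : ℝ) (η : ℂ) (θ : Fin d → ℝ) :
    (Fin d → ℂ) × ℂ :=
  (fun k => circ ρ (θ k) ^ q, η / ∏ k, circ ρ (θ k) ^ N k)

variable {q : ℕ} {N : Fin d → ℕ} {ρ : ℝ} {η : ℂ}

theorem good_pc (hρ : 0 < ρ) : Good fun θ : Fin d → ℝ => ∏ k, circ ρ (θ k) ^ N k :=
  good_prod Finset.univ fun k => good_pow (good_circ hρ k) (N k)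

theorem good_on (hρ : 0 < ρ) (hη : η ≠ 0) :
    Good fun θ : Fin d → ℝ => η / ∏ k, circ ρ (θ k) ^ N k := by
  refine ⟨?_, fun θ => div_ne_zero hη ((good_pc hρ).ne_zero θ)⟩
  have e : (fun θ : Fin d → ℝ => η / ∏ k, circ ρ (θ k) ^ N k) =
      fun θ => η * (∏ k, circ ρ (θ k) ^ N k)⁻¹ := by
    funext θ
    rw [div_eq_mul_inv]
  rw [e]
  exact contDiff_const.mul ((good_pc hρ).smooth.inv (good_pc hρ).ne_zero)

theorem lw_pc (hρ : 0 < ρ) (j : Fin d) (θ : Fin d → ℝ) :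
    lw (fun θ : Fin d → ℝ => ∏ k, circ ρ (θ k) ^ N k) j θ =
      N j * (2 * Real.pi * Complex.I) := by
  classical
  rw [lw_prod Finset.univ (fun k => good_pow (good_circ hρ k) (N k))]
  have h : ∀ k, lw (fun θ : Fin d → ℝ => circ ρ (θ k) ^ N k) j θ =
      if j = k then N k * (2 * Real.pi * Complex.I) else 0 := by
    intro k
    rw [lw_pow (good_circ hρ k), lw_circ hρ]
    split_ifs
    · rfl
    · rw [mul_zero]
  simp only [h]
  rw [Finset.sum_ite_eq Finset.univ j]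
  simp

theorem lw_on (hρ : 0 < ρ) (hη : η ≠ 0) (j : Fin d) (θ : Fin d → ℝ) :
    lw (fun θ : Fin d → ℝ => η / ∏ k, circ ρ (θ k) ^ N k) j θ =
      -(N j * (2 * Real.pi * Complex.I)) := by
  have h1 := lw_mul (good_on (d := d) (N := N) hρ hη) (good_pc (N := N) hρ) j θ
  have e : (fun θ : Fin d → ℝ => (η / ∏ k, circ ρ (θ k) ^ N k) * ∏ k, circ ρ (θ k) ^ N k) =
      fun _ => η := by
    funext θ
    exact div_mul_cancel₀ _ ((good_pc hρ).ne_zero θ)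
  rw [e, lw_const, lw_pc hρ] at h1
  linear_combination -h1

theorem norm_on (hρ : 0 < ρ) (θ : Fin d → ℝ) :
    ‖η / ∏ k, circ ρ (θ k) ^ N k‖ = ‖η‖ / ρ ^ (∑ k, N k) := by
  rw [norm_div, norm_prod]
  simp only [norm_pow, norm_circ hρ.le]
  rw [Finset.prod_pow_eq_pow_sum]

theorem norm_on_le (hρ : 0 < ρ) (hη : ‖η‖ ≤ ρ ^ (∑ k, N k + 1)) (θ : Fin d → ℝ) :
    ‖η / ∏ k, circ ρ (θ k) ^ N k‖ ≤ ρ := by
  rw [norm_on hρ, div_le_iff₀ (by positivity)]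
  rwa [pow_succ, mul_comm] at hη

theorem norm_cq_le (hρ : 0 < ρ) (hρ1 : ρ ≤ 1) (hq : 0 < q) (s : ℝ) : ‖circ ρ s ^ q‖ ≤ ρ := by
  rw [norm_pow, norm_circ hρ.le]
  exact pow_le_of_le_one hρ.le hρ1 hq.ne'

theorem contDiff_zn (hρ : 0 < ρ) (hη : η ≠ 0) : ContDiff ℝ 2 (zn q N ρ η) :=
  (contDiff_pi.2 fun k => (good_pow (good_circ hρ k) q).smooth).prodMk (good_on hρ hη).smooth

theorem norm_zn_le (hρ : 0 < ρ) (hρ1 : ρ ≤ 1) (hq : 0 < q) (hη : ‖η‖ ≤ ρ ^ (∑ k, N k + 1))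
    (θ : Fin d → ℝ) : ‖zn q N ρ η θ‖ ≤ ρ := by
  rw [norm_prod_le_iff]
  refine ⟨?_, norm_on_le hρ hη θ⟩
  rw [pi_norm_le_iff_of_nonneg hρ.le]
  intro k
  exact norm_cq_le hρ hρ1 hq _

theorem zn_add_single (θ : Fin d → ℝ) (i : Fin d) :
    zn q N ρ η (θ + Pi.single i 1) = zn q N ρ η θ := by
  have hcp : ∀ k : Fin d, circ ρ ((θ + Pi.single i 1 : Fin d → ℝ) k) = circ ρ (θ k) := by
    intro k
    exact congrFun (tpt_add_single (fun _ => ρ) θ i) k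
  unfold zn
  simp only [hcp]

theorem norm_fderiv_zn (hρ : 0 < ρ) (hρ1 : ρ ≤ 1) (hq : 0 < q) (hη0 : η ≠ 0)
    (hη : ‖η‖ ≤ ρ ^ (∑ k, N k + 1)) (θ : Fin d → ℝ) (j : Fin d) :
    ‖fderiv ℝ (zn q N ρ η) θ (Pi.single j 1)‖ ≤ 2 * Real.pi * ρ * (q + ∑ k, (N k : ℝ)) := by
  have hd : HasFDerivAt (zn q N ρ η) (fderiv ℝ (zn q N ρ η) θ) θ :=
    (((contDiff_zn hρ hη0).differentiable (by norm_num)) θ).hasFDerivAt
  have hpi : ‖2 * (Real.pi : ℂ) * Complex.I‖ = 2 * Real.pi := by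
    rw [norm_mul, norm_mul, Complex.norm_I, Complex.norm_real, Complex.norm_ofNat, mul_one,
      Real.norm_eq_abs, abs_of_pos Real.pi_pos]
  have hpi0 := Real.pi_pos
  have hS : (0 : ℝ) ≤ ∑ k, (N k : ℝ) := Finset.sum_nonneg fun k _ => Nat.cast_nonneg _
  have hq0 : (0 : ℝ) ≤ q := Nat.cast_nonneg _
  have hNj : (N j : ℝ) ≤ ∑ k, (N k : ℝ) :=
    Finset.single_le_sum (f := fun k => (N k : ℝ)) (fun k _ => Nat.cast_nonneg _)
      (Finset.mem_univ j)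
  have hpos : 0 ≤ 2 * Real.pi * ρ * (q + ∑ k, (N k : ℝ)) := by positivity
  rw [norm_prod_le_iff]
  constructor
  · rw [pi_norm_le_iff_of_nonneg hpos]
    intro k
    have h1 := (((ContinuousLinearMap.proj (R := ℝ) (φ := fun _ : Fin d => ℂ) k).comp
      (ContinuousLinearMap.fst ℝ (Fin d → ℂ) ℂ)).hasFDerivAt).comp θ hd
    have h2 := h1.fderiv
    have h3 : (fderiv ℝ (zn q N ρ η) θ (Pi.single j 1)).1 k =
        fderiv ℝ (fun θ : Fin d → ℝ => circ ρ (θ k) ^ q) θ (Pi.single j 1) :=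
      (DFunLike.congr_fun h2 (Pi.single j 1)).symm
    have h4 : fderiv ℝ (fun θ : Fin d → ℝ => circ ρ (θ k) ^ q) θ (Pi.single j 1) =
        lw (fun θ : Fin d → ℝ => circ ρ (θ k) ^ q) j θ * circ ρ (θ k) ^ q := by
      unfold lw
      rw [div_mul_cancel₀ _ (pow_ne_zero _ (circ_ne_zero hρ _))]
    rw [h3, h4, lw_pow (good_circ hρ k), lw_circ hρ]
    split_ifs
    · rw [norm_mul, norm_mul, hpi, Complex.norm_natCast]
      calc (q : ℝ) * (2 * Real.pi) * ‖circ ρ (θ k) ^ q‖ ≤ (q : ℝ) * (2 * Real.pi) * ρ :=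
            mul_le_mul_of_nonneg_left (norm_cq_le hρ hρ1 hq _) (by positivity)
        _ = 2 * Real.pi * ρ * q := by ring
        _ ≤ _ := mul_le_mul_of_nonneg_left (by linarith) (by positivity)
    · rw [mul_zero, zero_mul, norm_zero]
      exact hpos
  · have h1 := ((ContinuousLinearMap.snd ℝ (Fin d → ℂ) ℂ).hasFDerivAt).comp θ hd
    have h2 := h1.fderiv
    have h3 : (fderiv ℝ (zn q N ρ η) θ (Pi.single j 1)).2 =
        fderiv ℝ (fun θ : Fin d → ℝ => η / ∏ k, circ ρ (θ k) ^ N k) θ (Pi.single j 1) :=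
      (DFunLike.congr_fun h2 (Pi.single j 1)).symm
    have h4 : fderiv ℝ (fun θ : Fin d → ℝ => η / ∏ k, circ ρ (θ k) ^ N k) θ (Pi.single j 1) =
        lw (fun θ : Fin d → ℝ => η / ∏ k, circ ρ (θ k) ^ N k) j θ *
          (η / ∏ k, circ ρ (θ k) ^ N k) := by
      unfold lw
      rw [div_mul_cancel₀ _ ((good_on hρ hη0).ne_zero θ)]
    rw [h3, h4, lw_on hρ hη0, norm_mul, norm_neg, norm_mul, hpi, Complex.norm_natCast]
    calc (N j : ℝ) * (2 * Real.pi) * ‖η / ∏ k, circ ρ (θ k) ^ N k‖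
        ≤ (N j : ℝ) * (2 * Real.pi) * ρ :=
          mul_le_mul_of_nonneg_left (norm_on_le hρ hη θ) (by positivity)
      _ = 2 * Real.pi * ρ * N j := by ring
      _ ≤ _ := mul_le_mul_of_nonneg_left (by linarith) (by positivity)

variable {δ C : ℝ} {φ : (Fin d → ℂ) × ℂ → ℂ}

theorem good_nice (hρ : 0 < ρ) (hρ1 : ρ ≤ 1) (hq : 0 < q) (hρδ : ρ < δ) (hη0 : η ≠ 0)
    (hη : ‖η‖ ≤ ρ ^ (∑ k, N k + 1)) (hφ : Nice δ C φ) : Good fun θ => φ (zn q N ρ η θ) := by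
  have hz : ∀ θ : Fin d → ℝ, ‖zn q N ρ η θ‖ < δ := fun θ =>
    (norm_zn_le hρ hρ1 hq hη θ).trans_lt hρδ
  refine ⟨?_, fun θ => (hφ _ (hz θ)).2.1⟩
  rw [contDiff_iff_contDiffAt]
  intro θ
  exact (((hφ _ (hz θ)).1).restrict_scalars ℝ).comp θ (contDiff_zn hρ hη0).contDiffAt

theorem lw_nice (hρ : 0 < ρ) (hρ1 : ρ ≤ 1) (hq : 0 < q) (hρδ : ρ < δ) (hη0 : η ≠ 0)
    (hη : ‖η‖ ≤ ρ ^ (∑ k, N k + 1)) (hφ : Nice δ C φ) (j : Fin d) (θ : Fin d → ℝ) :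
    ‖lw (fun θ => φ (zn q N ρ η θ)) j θ‖ ≤ C * (2 * Real.pi * ρ * (q + ∑ k, (N k : ℝ))) := by
  have hz : ‖zn q N ρ η θ‖ < δ := (norm_zn_le hρ hρ1 hq hη θ).trans_lt hρδ
  have hd : HasFDerivAt (zn q N ρ η) (fderiv ℝ (zn q N ρ η) θ) θ :=
    (((contDiff_zn hρ hη0).differentiable (by norm_num)) θ).hasFDerivAt
  obtain ⟨h1, h2, -, h3⟩ := hφ _ hz
  have h4 : HasFDerivAt φ ((fderiv ℂ φ (zn q N ρ η θ)).restrictScalars ℝ) (zn q N ρ η θ) :=
    ((h1.differentiableAt (by norm_num)).hasFDerivAt).restrictScalars ℝ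
  have h5 := (h4.comp θ hd).fderiv
  have h6 : fderiv ℝ (fun θ => φ (zn q N ρ η θ)) θ (Pi.single j 1) =
      fderiv ℂ φ (zn q N ρ η θ) (fderiv ℝ (zn q N ρ η) θ (Pi.single j 1)) :=
    DFunLike.congr_fun h5 (Pi.single j 1)
  unfold lw
  rw [h6, norm_div]
  have hpos : 0 < ‖φ (zn q N ρ η θ)‖ := norm_pos_iff.2 h2
  have hpi0 := Real.pi_pos
  have hS : (0 : ℝ) ≤ ∑ k, (N k : ℝ) := Finset.sum_nonneg fun k _ => Nat.cast_nonneg _
  have h7 : ‖fderiv ℂ φ (zn q N ρ η θ) (fderiv ℝ (zn q N ρ η) θ (Pi.single j 1))‖ ≤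
      ‖fderiv ℂ φ (zn q N ρ η θ)‖ * (2 * Real.pi * ρ * (q + ∑ k, (N k : ℝ))) :=
    (ContinuousLinearMap.le_opNorm _ _).trans
      (mul_le_mul_of_nonneg_left (norm_fderiv_zn hρ hρ1 hq hη0 hη θ j) (norm_nonneg _))
  calc _ ≤ ‖fderiv ℂ φ (zn q N ρ η θ)‖ * (2 * Real.pi * ρ * (q + ∑ k, (N k : ℝ))) /
        ‖φ (zn q N ρ η θ)‖ := div_le_div_of_nonneg_right h7 hpos.le
    _ = ‖fderiv ℂ φ (zn q N ρ η θ)‖ / ‖φ (zn q N ρ η θ)‖ *
        (2 * Real.pi * ρ * (q + ∑ k, (N k : ℝ))) := by ring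
    _ ≤ _ := mul_le_mul_of_nonneg_right h3 (by positivity)

/-- the orders (in `η ^ q` and in the angles) of the coordinates -/
noncomputable def yrow (q : ℕ) (N : Fin d → ℕ) : Fin (d + 1) → Fin (d + 1) → ℝ :=
  Fin.cons (Fin.cons (q : ℝ)⁻¹ fun k => -(N k : ℝ)) fun j => Pi.single j.succ (q : ℝ)

/-- the orders of the monomial with the exponents `μ` -/
noncomputable def mrow (q : ℕ) (N : Fin d → ℕ) (μ : Fin (d + 1) → ℕ) (i : Fin (d + 1)) : ℝ :=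
  ∑ j, (μ j : ℝ) * yrow q N j i

/-- the monomial with the exponents `μ` -/
noncomputable def mmon (μ : Fin (d + 1) → ℕ) (u : (Fin d → ℂ) × ℂ) : ℂ :=
  u.2 ^ μ 0 * ∏ k : Fin d, u.1 k ^ μ k.succ

theorem mrow_zero (μ : Fin (d + 1) → ℕ) : mrow q N μ 0 = μ 0 * (q : ℝ)⁻¹ := by
  unfold mrow yrow
  rw [Fin.sum_univ_succ]
  simp only [Fin.cons_zero, Fin.cons_succ]
  have h : ∀ j : Fin d, (Pi.single j.succ (q : ℝ) : Fin (d + 1) → ℝ) 0 = 0 := fun j =>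
    Pi.single_eq_of_ne (Fin.succ_ne_zero j).symm _
  simp only [h, mul_zero, Finset.sum_const_zero, add_zero]

theorem mrow_succ (μ : Fin (d + 1) → ℕ) (j : Fin d) :
    mrow q N μ j.succ = μ j.succ * q - μ 0 * N j := by
  unfold mrow yrow
  rw [Fin.sum_univ_succ]
  simp only [Fin.cons_zero, Fin.cons_succ]
  rw [Finset.sum_eq_single j]
  · rw [Pi.single_eq_same]
    ring
  · intro l _ hl
    have : j.succ ≠ l.succ := fun e => hl (Fin.succ_injective _ e).symm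
    rw [Pi.single_eq_of_ne this, mul_zero]
  · intro h
    exact absurd (Finset.mem_univ j) h

theorem mmon_props (hρ : 0 < ρ) (hq : 0 < q) (hη : η ≠ 0) (μ : Fin (d + 1) → ℕ) :
    Good (fun θ : Fin d → ℝ => mmon μ (zn q N ρ η θ)) ∧
    (∀ j θ, lw (fun θ : Fin d → ℝ => mmon μ (zn q N ρ η θ)) j θ =
      2 * Real.pi * Complex.I * mrow q N μ j.succ) ∧
    ∀ θ : Fin d → ℝ, |Real.log ‖mmon μ (zn q N ρ η θ)‖ - mrow q N μ 0 * Real.log ‖η ^ q‖| ≤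
      (μ 0 * ∑ k, (N k : ℝ) + q * ∑ k : Fin d, (μ k.succ : ℝ)) * |Real.log ρ| := by
  classical
  have hq' : (q : ℝ) ≠ 0 := by exact_mod_cast hq.ne'
  have g1 := good_pow (good_on (d := d) (N := N) hρ hη) (μ 0)
  have g2 : Good fun θ : Fin d → ℝ => ∏ k : Fin d, circ ρ (θ k) ^ (q * μ k.succ) :=
    good_prod Finset.univ fun k => good_pow (good_circ hρ k) (q * μ k.succ)
  have hfun : (fun θ : Fin d → ℝ => mmon μ (zn q N ρ η θ)) = fun θ =>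
      (η / ∏ k, circ ρ (θ k) ^ N k) ^ μ 0 * ∏ k : Fin d, circ ρ (θ k) ^ (q * μ k.succ) := by
    funext θ
    unfold mmon zn
    simp only [pow_mul]
  rw [hfun]
  refine ⟨g1.mul g2, fun j θ => ?_, fun θ => ?_⟩
  · have h1 := lw_mul g1 g2 j θ
    rw [lw_pow (good_on hρ hη), lw_on hρ hη, lw_pc (N := fun k => q * μ k.succ) hρ] at h1
    refine h1.trans ?_
    rw [mrow_succ]
    push_cast
    ring
  · have h1 : Real.log ‖mmon μ (zn q N ρ η θ)‖ =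
        μ 0 * (Real.log ‖η‖ - (∑ k, (N k : ℝ)) * Real.log ρ) +
          q * (∑ k : Fin d, (μ k.succ : ℝ)) * Real.log ρ := by
      rw [congrFun hfun θ, norm_mul, norm_pow, norm_on hρ, norm_prod]
      simp only [norm_pow, norm_circ hρ.le]
      rw [Finset.prod_pow_eq_pow_sum, Real.log_mul (by positivity) (by positivity), Real.log_pow,
        Real.log_pow, Real.log_div (norm_ne_zero_iff.2 hη) (by positivity), Real.log_pow,
        ← Finset.mul_sum]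
      push_cast
      ring
    rw [h1, mrow_zero, norm_pow, Real.log_pow]
    have e : μ 0 * (Real.log ‖η‖ - (∑ k, (N k : ℝ)) * Real.log ρ) +
          q * (∑ k : Fin d, (μ k.succ : ℝ)) * Real.log ρ -
          μ 0 * (q : ℝ)⁻¹ * (q * Real.log ‖η‖) =
        -((μ 0 : ℝ) * ∑ k, (N k : ℝ)) * Real.log ρ +
          (q * ∑ k : Fin d, (μ k.succ : ℝ)) * Real.log ρ := by
      field_simp
      ring
    rw [e]
    refine (abs_add_le _ _).trans ?_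
    have hS : (0 : ℝ) ≤ (μ 0 : ℝ) * ∑ k, (N k : ℝ) :=
      mul_nonneg (Nat.cast_nonneg _) (Finset.sum_nonneg fun k _ => Nat.cast_nonneg _)
    have hM : (0 : ℝ) ≤ q * ∑ k : Fin d, (μ k.succ : ℝ) :=
      mul_nonneg (Nat.cast_nonneg _) (Finset.sum_nonneg fun k _ => Nat.cast_nonneg _)
    rw [abs_mul, abs_mul, abs_neg, abs_of_nonneg hS, abs_of_nonneg hM]
    exact le_of_eq (by ring)

variable {ι : Type*} [Fintype ι]

theorem prod_mmon {μ : ι → Fin (d + 1) → ℕ} (hμ : ∑ e, μ e 0 = q)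
    (hN : ∀ k : Fin d, ∑ e, μ e k.succ = N k) (u : (Fin d → ℂ) × ℂ) :
    ∏ e, mmon (μ e) u = u.2 ^ q * ∏ k, u.1 k ^ N k := by
  unfold mmon
  rw [Finset.prod_mul_distrib, Finset.prod_pow_eq_pow_sum, hμ, Finset.prod_comm]
  congr 1
  refine Finset.prod_congr rfl fun k _ => ?_
  rw [Finset.prod_pow_eq_pow_sum, hN]

/-- The tori. -/
theorem exists_points {H h : ι → (Fin d → ℂ) × ℂ → ℂ} {μ : ι → Fin (d + 1) → ℕ}
    (hH : ∀ e u, H e u = mmon (μ e) u * h e u) (hc : ∀ e, ContDiff ℂ 2 (h e))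
    (h0 : ∀ e, h e 0 ≠ 0) (hμ : ∑ e, μ e 0 = q) (hq : 0 < q)
    (hN : ∀ k : Fin d, ∑ e, μ e k.succ = N k) {ε : ℝ} (hε : 0 < ε) :
    ∃ η0 : ℝ, 0 < η0 ∧ ∀ η : ℂ, η ≠ 0 → ‖η‖ < η0 → Real.log ‖η‖ < 0 ∧
      ∃ X : (Fin d → ℝ) → (Fin d → ℂ) × ℂ, ContDiff ℝ 2 X ∧
        (∀ θ i, X (θ + Pi.single i 1) = X θ) ∧ (∀ θ, ∏ e, H e (X θ) = η) ∧
        (∀ e, Good fun θ => H e (X θ)) ∧
        ∀ e θ, |Real.log ‖H e (X θ)‖ / Real.log ‖η‖ - mrow q N (μ e) 0| ≤ ε ∧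
          ∀ j, ‖lw (fun θ => H e (X θ)) j θ -
            2 * Real.pi * Complex.I * mrow q N (μ e) j.succ‖ ≤ ε := by
  classical
  set Q : (Fin d → ℂ) × ℂ → ℂ := fun u => ∏ e, h e u with hQ
  have hQc : ContDiff ℂ 2 Q := contDiff_prod fun e _ => hc e
  have hQ0 : Q 0 ≠ 0 := Finset.prod_ne_zero_iff.2 fun e _ => h0 e
  obtain ⟨R, hRc, hR0, hRQ⟩ := exists_root Q hQc.contDiffAt hQ0 hq
  obtain ⟨Y, hY, hY0, hYQ⟩ := exists_sol R hRc hR0
  set U : (Fin d → ℂ) × ℂ → (Fin d → ℂ) × ℂ := fun ζ => (ζ.1, Y ζ) with hU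
  have hU0 : U 0 = 0 := by
    show ((0 : (Fin d → ℂ) × ℂ).1, Y 0) = 0
    rw [hY0]
    rfl
  have hUc : ContDiffAt ℂ 2 U 0 := contDiffAt_fst.prodMk hY
  have hQUc : ContDiffAt ℂ 2 (fun ζ => R (U ζ)) 0 := by
    refine ContDiffAt.comp (g := R) (0 : (Fin d → ℂ) × ℂ) ?_ hUc
    rw [hU0]
    exact hRc
  have hQU0 : R (U 0) ≠ 0 := by rw [hU0]; exact hR0
  have hRU : ∀ᶠ ζ in 𝓝 (0 : (Fin d → ℂ) × ℂ), R (U ζ) ^ q = Q (U ζ) := by
    have h1 : Tendsto U (𝓝 0) (𝓝 0) := by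
      have h2 := hUc.continuousAt
      unfold ContinuousAt at h2
      rwa [hU0] at h2
    exact h1.eventually hRQ
  set φ : ι → (Fin d → ℂ) × ℂ → ℂ := fun e ζ => (R (U ζ))⁻¹ ^ (μ e 0) * h e (U ζ) with hφ
  have hφ1 : ∀ e, ContDiffAt ℂ 2 (φ e) 0 := fun e =>
    ((hQUc.inv hQU0).pow _).mul (((hc e).contDiffAt).comp (0 : (Fin d → ℂ) × ℂ) hUc)
  have hφ2 : ∀ e, φ e 0 ≠ 0 := fun e => by
    simp only [hφ]
    refine mul_ne_zero (pow_ne_zero _ (inv_ne_zero hQU0)) ?_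
    rw [hU0]
    exact h0 e
  have hφ3 : ∀ᶠ ζ in 𝓝 (0 : (Fin d → ℂ) × ℂ), ∀ e, H e (U ζ) = mmon (μ e) ζ * φ e ζ := by
    filter_upwards [hYQ, hQUc.continuousAt.eventually_ne hQU0] with ζ h1 h2 e
    have h3 : Y ζ = ζ.2 * (R (U ζ))⁻¹ := by
      rw [eq_mul_inv_iff_mul_eq₀ h2]
      exact h1
    rw [hH]
    simp only [hφ]
    have h4 : mmon (μ e) (U ζ) = mmon (μ e) ζ * (R (U ζ))⁻¹ ^ (μ e 0) := by
      unfold mmon
      have h5 : (U ζ).2 = ζ.2 * (R (U ζ))⁻¹ := h3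
      have h6 : (U ζ).1 = ζ.1 := rfl
      rw [h5, h6, mul_pow]
      ring
    rw [h4]
    ring
  choose C hC using fun e => exists_nice (hφ1 e) (hφ2 e)
  have hall := (hY.eventually (by norm_num)).and (hYQ.and
    (hφ3.and ((eventually_all.2 fun e => hC e).and hRU)))
  obtain ⟨δ, hδ, hball⟩ := Metric.eventually_nhds_iff.1 hall
  set C0 : ℝ := ∑ e, |C e| with hC0
  have hC00 : 0 ≤ C0 := Finset.sum_nonneg fun k _ => abs_nonneg _
  have hCle : ∀ e, C e ≤ C0 := fun e =>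
    (le_abs_self _).trans (Finset.single_le_sum (f := fun e => |C e|)
      (fun j _ => abs_nonneg _) (Finset.mem_univ e))
  have hnice : ∀ e, Nice δ C0 (φ e) := by
    intro e ζ hζ
    obtain ⟨-, -, -, h, -⟩ := hball (y := ζ) (by rwa [dist_zero_right])
    obtain ⟨a1, a2, a3, a4⟩ := h e
    exact ⟨a1, a2, a3.trans (hCle e), a4.trans (hCle e)⟩
  set NS : ℝ := ∑ k, (N k : ℝ) with hNS
  have hNS0 : 0 ≤ NS := Finset.sum_nonneg fun k _ => Nat.cast_nonneg _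
  have hq0 : (0 : ℝ) < q := by exact_mod_cast hq
  set ρ : ℝ := min (min (δ / 2) 1) (ε / (2 * Real.pi * (C0 + 1) * (q + NS))) with hρdef
  have hpi := Real.pi_pos
  have hρ : 0 < ρ := lt_min (lt_min (by linarith) one_pos) (by positivity)
  have hρ1 : ρ ≤ 1 := (min_le_left _ _).trans (min_le_right _ _)
  have hρδ : ρ < δ := ((min_le_left _ _).trans (min_le_left _ _)).trans_lt (by linarith)
  have hρε : C0 * (2 * Real.pi * ρ * (q + NS)) ≤ ε := by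
    have h1 : ρ ≤ ε / (2 * Real.pi * (C0 + 1) * (q + NS)) := min_le_right _ _
    rw [le_div_iff₀ (by positivity)] at h1
    calc C0 * (2 * Real.pi * ρ * (q + NS)) ≤ (C0 + 1) * (2 * Real.pi * ρ * (q + NS)) :=
          mul_le_mul_of_nonneg_right (by linarith) (by positivity)
      _ = ρ * (2 * Real.pi * (C0 + 1) * (q + NS)) := by ring
      _ ≤ ε := h1
  set B : ι → ℝ := fun e => (μ e 0 : ℝ) * NS + q * ∑ k : Fin d, (μ e k.succ : ℝ) with hB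
  have hB0 : ∀ e, 0 ≤ B e := fun e => add_nonneg (mul_nonneg (Nat.cast_nonneg _) hNS0)
    (mul_nonneg hq0.le (Finset.sum_nonneg fun k _ => Nat.cast_nonneg _))
  set B0 : ℝ := ∑ e, B e with hB0def
  have hB00 : 0 ≤ B0 := Finset.sum_nonneg fun e _ => hB0 e
  have hBle : ∀ e, B e ≤ B0 := fun e =>
    Finset.single_le_sum (f := B) (fun e _ => hB0 e) (Finset.mem_univ e)
  set M : ℝ := (C0 + B0 * |Real.log ρ|) / ε + 1 with hM
  have hM1 : 1 ≤ M := by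
    have : 0 ≤ (C0 + B0 * |Real.log ρ|) / ε := by positivity
    rw [hM]
    linarith
  refine ⟨min ((ρ ^ (∑ k, N k + 1)) ^ q) (Real.exp (-M)), lt_min (by positivity)
    (Real.exp_pos _), fun η' hη0' hη' => ?_⟩
  obtain ⟨η, hηq⟩ := IsAlgClosed.exists_pow_nat_eq η' hq
  have hη0 : η ≠ 0 := by
    rintro rfl
    rw [zero_pow hq.ne'] at hηq
    exact hη0' hηq.symm
  have hηρ : ‖η‖ ≤ ρ ^ (∑ k, N k + 1) := by
    have h1 : ‖η‖ ^ q ≤ (ρ ^ (∑ k, N k + 1)) ^ q := by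
      rw [← norm_pow, hηq]
      exact (hη'.trans_le (min_le_left _ _)).le
    exact le_of_pow_le_pow_left₀ hq.ne' (by positivity) h1
  have hlog : Real.log ‖η'‖ < -M := by
    rw [Real.log_lt_iff_lt_exp (norm_pos_iff.2 hη0')]
    exact hη'.trans_le (min_le_right _ _)
  have hlog0 : Real.log ‖η'‖ ≠ 0 := by linarith
  have habs : M ≤ |Real.log ‖η'‖| := by
    rw [abs_of_neg (by linarith)]
    linarith
  refine ⟨by linarith, ?_⟩
  have hz : ∀ θ : Fin d → ℝ, ‖zn q N ρ η θ‖ < δ := fun θ =>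
    (norm_zn_le hρ hρ1 hq hηρ θ).trans_lt hρδ
  have hb := fun θ : Fin d → ℝ =>
    hball (y := zn q N ρ η θ) (by rw [dist_zero_right]; exact hz θ)
  set X : (Fin d → ℝ) → (Fin d → ℂ) × ℂ := fun θ => U (zn q N ρ η θ) with hX
  have hfac : ∀ e, (fun θ => H e (X θ)) = fun θ => mmon (μ e) (zn q N ρ η θ) *
      φ e (zn q N ρ η θ) := fun e => funext fun θ => (hb θ).2.2.1 e
  have hg : ∀ e, Good fun θ => φ e (zn q N ρ η θ) := fun e =>
    good_nice hρ hρ1 hq hρδ hη0 hηρ (hnice e)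
  refine ⟨X, ?_, fun θ i => ?_, fun θ => ?_, fun e => ?_, fun e θ => ?_⟩
  · rw [contDiff_iff_contDiffAt]
    intro θ
    have h1 : ContDiffAt ℝ 2 (fun ζ : (Fin d → ℂ) × ℂ => (ζ.1, Y ζ)) (zn q N ρ η θ) := by
      refine ContDiffAt.restrict_scalars ℝ (𝕜' := ℂ) ?_
      exact contDiffAt_fst.prodMk (hb θ).1
    exact h1.comp θ (contDiff_zn hρ hη0).contDiffAt
  · simp only [hX]
    rw [zn_add_single]
  · simp only [hH, Finset.prod_mul_distrib]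
    rw [prod_mmon hμ hN]
    have h1 : Y (zn q N ρ η θ) * R (X θ) = (zn q N ρ η θ).2 := (hb θ).2.1
    have h2 : (X θ).2 = Y (zn q N ρ η θ) := rfl
    have h3 : (X θ).1 = (zn q N ρ η θ).1 := rfl
    have h5 : R (X θ) ^ q = Q (X θ) := (hb θ).2.2.2.2
    rw [h2, h3]
    have h4 : ∏ e, h e (X θ) = Q (X θ) := rfl
    rw [h4, ← h5, mul_right_comm, ← mul_pow, h1]
    have h6 : ∏ k, (zn q N ρ η θ).1 k ^ N k = (∏ k, circ ρ (θ k) ^ N k) ^ q := by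
      rw [← Finset.prod_pow]
      refine Finset.prod_congr rfl fun k _ => ?_
      show (circ ρ (θ k) ^ q) ^ N k = _
      rw [← pow_mul, ← pow_mul, mul_comm]
    rw [h6, ← mul_pow]
    have h7 : (zn q N ρ η θ).2 * ∏ k, circ ρ (θ k) ^ N k = η :=
      div_mul_cancel₀ _ ((good_pc (N := N) hρ).ne_zero θ)
    rw [h7, hηq]
  · rw [hfac e]
    exact (mmon_props hρ hq hη0 (μ e)).1.mul (hg e)
  · have hl := fun j => lw_nice hρ hρ1 hq hρδ hη0 hηρ (hnice e) j θ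
    obtain ⟨hm1, hm2, hm3⟩ := mmon_props (N := N) hρ hq hη0 (μ e)
    rw [hηq] at hm3
    have hn := (hnice e) _ (hz θ)
    have hpos : 0 < |Real.log ‖η'‖| := abs_pos.2 hlog0
    have hbound : C0 + B0 * |Real.log ρ| ≤ ε * |Real.log ‖η'‖| := by
      have h1 : (C0 + B0 * |Real.log ρ|) / ε ≤ |Real.log ‖η'‖| := by linarith
      rw [div_le_iff₀ hε] at h1
      linarith
    refine ⟨?_, fun j => ?_⟩
    · rw [congrFun (hfac e) θ, norm_mul, Real.log_mul (norm_ne_zero_iff.2 (hm1.ne_zero θ))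
        (norm_ne_zero_iff.2 hn.2.1)]
      have e' : (Real.log ‖mmon (μ e) (zn q N ρ η θ)‖ + Real.log ‖φ e (zn q N ρ η θ)‖) /
          Real.log ‖η'‖ - mrow q N (μ e) 0 = ((Real.log ‖mmon (μ e) (zn q N ρ η θ)‖ -
            mrow q N (μ e) 0 * Real.log ‖η'‖) + Real.log ‖φ e (zn q N ρ η θ)‖) /
              Real.log ‖η'‖ := by
        field_simp
        ring
      rw [e', abs_div, div_le_iff₀ hpos]
      refine (abs_add_le _ _).trans ?_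
      have h5 := hm3 θ
      have h6 := hn.2.2.1
      have h7 : B e * |Real.log ρ| ≤ B0 * |Real.log ρ| :=
        mul_le_mul_of_nonneg_right (hBle e) (abs_nonneg _)
      have h8 : |Real.log ‖mmon (μ e) (zn q N ρ η θ)‖ - mrow q N (μ e) 0 * Real.log ‖η'‖| ≤
        B e * |Real.log ρ| := h5
      linarith
    · rw [hfac e, lw_mul hm1 (hg e), hm2, add_sub_cancel_left]
      exact (hl j).trans hρε

end loc

end Pool.Agent.TH577.UA
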