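import Pool.Agent.TH826.SX.Milnor
set_option autoImplicit false

/-!
Symbols in the unit part: relations between some of the entries.
-/

namespace Pool.Agent.TH577.UA

open scoped WithZero

open Pool.Agent.TH826.MK

open Pool.Agent.TH826.SX

section Milnor

variable {L : Type*} [Field L] {n : ℕ}

/-- A symbol such that the entries on `J` are integral with sum congruent to `-1` lies in the unit
part. -/
theorem mem_unitPart_of_sum_on (v : Valuation L ℤᵐ⁰) (a : Fin n → Lˣ) (J : Finset (Fin n))
    (h1 : ∀ k ∈ J, v (a k : L) ≤ 1) (h : v (1 + ∑ k ∈ J, (a k : L)) < 1) :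
    symb a ∈ unitPart v n := by
  classical
  set T : Finset (Fin n) := J.filter fun k => v (a k : L) = 1 with hT
  have hrest : v (∑ k ∈ J.filter (fun k => ¬ v (a k : L) = 1), (a k : L)) < 1 := by
    refine Valuation.map_sum_lt v one_ne_zero fun k hk => ?_
    exact lt_of_le_of_ne (h1 k (Finset.mem_filter.1 hk).1) (Finset.mem_filter.1 hk).2
  have hTsum : v (1 + ∑ k ∈ T, (a k : L)) < 1 := by
    have e : 1 + ∑ k ∈ T, (a k : L) = (1 + ∑ k ∈ J, (a k : L)) -
        ∑ k ∈ J.filter (fun k => ¬ v (a k : L) = 1), (a k : L) := by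
      rw [← Finset.sum_filter_add_sum_filter_not J (fun k => v (a k : L) = 1)]
      ring
    rw [e]
    exact (v.map_sub _ _).trans_lt (max_lt h hrest)
  have hne : T.Nonempty := by
    by_contra hcon
    rw [Finset.not_nonempty_iff_eq_empty] at hcon
    rw [hcon, Finset.sum_empty, add_zero, map_one] at hTsum
    exact lt_irrefl _ hTsum
  obtain ⟨t, ht⟩ := hne
  have hvt : v (a t : L) = 1 := (Finset.mem_filter.1 ht).2
  set e : L := -1 - ∑ k ∈ T.erase t, (a k : L) with he
  have hsub : (a t : L) - e = 1 + ∑ k ∈ T, (a k : L) := by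
    rw [he, ← Finset.add_sum_erase T _ ht]
    ring
  have hve : v e = 1 := by
    have e1 : e = a t - ((a t : L) - e) := by ring
    rw [e1, hsub, ← hvt]
    refine Valuation.map_sub_eq_of_lt_left v ?_
    rw [hvt]
    exact hTsum
  have he0 : e ≠ 0 := by
    intro h0
    rw [h0, map_zero] at hve
    exact zero_ne_one hve
  set e' : Lˣ := Units.mk0 e he0 with he'
  have hq : a t = e' * (a t / e') := by rw [mul_div_cancel]
  have h2 : symb a = symb (Function.update a t e') + symb (Function.update a t (a t / e')) := by
    rw [← symb_update_mul, ← hq, Function.update_eq_self]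
  rw [h2]
  refine Submodule.add_mem _ ?_ ?_
  · rw [symb_eq_zero_of_sum_neg T]
    · exact Submodule.zero_mem _
    · rw [← Finset.add_sum_erase T _ ht, Function.update_self,
        Finset.sum_congr rfl fun k hk => by rw [Function.update_of_ne (Finset.ne_of_mem_erase hk)],
        he', Units.val_mk0, he]
      ring
  · refine mem_unitPart_of_oneUnit' v t _ ?_
    rw [Function.update_self, Units.val_div_eq_div_val, he', Units.val_mk0, div_sub_one he0,
      map_div₀, hve, div_one, hsub]
    exact hTsum

/-- Division of some entries by another entry does not change a symbol. -/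
theorem symb_div_on (a : Fin n → Lˣ) (l : Fin n) (T : Finset (Fin n)) (hl : l ∉ T) :
    symb (fun k => if k ∈ T then a k / a l else a k) = symb a := by
  classical
  revert hl
  induction T using Finset.induction_on with
  | empty => intro _; simp
  | insert j T hj ih =>
    intro hl
    have hlj : l ≠ j := fun e => hl (e ▸ Finset.mem_insert_self _ _)
    have hlT : l ∉ T := fun e => hl (Finset.mem_insert_of_mem e)
    rw [← ih hlT]
    set b : Fin n → Lˣ := fun k => if k ∈ T then a k / a l else a k with hb
    have hbl : b l = a l := by simp [hb, hlT]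
    have hbj : b j = a j := by simp [hb, hj]
    have e : (fun k => if k ∈ insert j T then a k / a l else a k) =
        Function.update b j (a j * (a l)⁻¹) := by
      funext k
      by_cases h : k = j
      · subst h; simp [div_eq_mul_inv]
      · simp [Function.update_of_ne h, h, hb]
    rw [e, symb_update_mul, symb_upd_inv, ← hbj, Function.update_eq_self]
    have h0 : symb (Function.update b j (a l)) = 0 :=
      symb_self _ hlj (by rw [Function.update_self, Function.update_of_ne hlj, hbl])
    rw [h0, neg_zero, add_zero]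

/-- If the entries on `J` are `z_k / z_0`, where one of the `z_k` is not integral, but
`z_0 - ∑_{k ∈ J} z_k` is integral, then the symbol lies in the unit part. -/
theorem mem_unitPart_of_block (v : Valuation L ℤᵐ⁰) (a : Fin n → Lˣ) (J : Finset (Fin n))
    (z : Fin n → Lˣ) (z0 : Lˣ) (ha : ∀ k ∈ J, a k = z k / z0)
    (hsum : v ((z0 : L) - ∑ k ∈ J, (z k : L)) ≤ 1) {l : Fin n} (hl : l ∈ J)
    (hbig : 1 < v (z l : L)) : symb a ∈ unitPart v n := by
  classical
  have hdiv : ∀ x y : Lˣ, ((x / y : Lˣ) : L) = (x : L) / (y : L) := fun x y =>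
    Units.val_div_eq_div_val _ _
  obtain ⟨k0, hk0, hmax⟩ := Finset.exists_max_image J (fun k => v (z k : L)) ⟨l, hl⟩
  have hk0big : 1 < v (z k0 : L) := hbig.trans_le (hmax l hl)
  rcases lt_or_ge (v (z k0 : L)) (v (z0 : L)) with hc | hc
  · -- the largest is `z_0`
    have h0big : 1 < v (z0 : L) := hk0big.trans hc
    have h00 : 0 < v (z0 : L) := zero_lt_one.trans h0big
    rw [← symb_neg_on a J]
    refine mem_unitPart_of_sum_on v _ J (fun k hk => ?_) ?_
    · rw [if_pos hk, Units.val_neg, Valuation.map_neg, ha k hk, hdiv, map_div₀, div_le_one₀ h00]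
      exact (hmax k hk).trans hc.le
    · have e : 1 + ∑ k ∈ J, ((if k ∈ J then -a k else a k : Lˣ) : L) =
          ((z0 : L) - ∑ k ∈ J, (z k : L)) / z0 := by
        rw [Finset.sum_congr rfl fun k hk => by rw [if_pos hk, Units.val_neg, ha k hk, hdiv],
          Finset.sum_neg_distrib, ← Finset.sum_div, sub_div, div_self z0.ne_zero]
        ring
      rw [e, map_div₀, div_lt_one₀ h00]
      exact hsum.trans_lt h0big
  · have h00 : 0 < v (z k0 : L) := zero_lt_one.trans hk0big
    rw [← symb_div_on a k0 (J.erase k0) (Finset.notMem_erase k0 _)]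
    set b : Fin n → Lˣ := fun k => if k ∈ J.erase k0 then a k / a k0 else a k with hb
    have hbk0 : b k0 = a k0 := by simp [hb]
    have h1 : symb b = - symb (Function.update b k0 (-(a k0)⁻¹)) := by
      rw [symb_upd_neg, symb_upd_inv, neg_neg, ← hbk0, Function.update_eq_self]
    rw [h1]
    refine Submodule.neg_mem _ ?_
    have hz : ∀ k ∈ J.erase k0, ((Function.update b k0 (-(a k0)⁻¹) k : Lˣ) : L) =
        (z k : L) / z k0 := by
      intro k hk
      have hkJ := Finset.mem_of_mem_erase hk
      rw [Function.update_of_ne (Finset.ne_of_mem_erase hk), hb]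
      simp only [if_pos hk]
      rw [ha k hkJ, ha k0 hk0, hdiv, hdiv, hdiv]
      have := z0.ne_zero
      have := (z k0).ne_zero
      field_simp
    have hz0 : ((Function.update b k0 (-(a k0)⁻¹) k0 : Lˣ) : L) = - ((z0 : L) / z k0) := by
      rw [Function.update_self, Units.val_neg, Units.val_inv_eq_inv_val, ha k0 hk0, hdiv, inv_div]
    refine mem_unitPart_of_sum_on v _ J (fun k hk => ?_) ?_
    · by_cases hkk : k = k0
      · rw [hkk, hz0, Valuation.map_neg, map_div₀, div_le_one₀ h00]
        exact hc
      · rw [hz k (Finset.mem_erase.2 ⟨hkk, hk⟩), map_div₀, div_le_one₀ h00]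
        exact hmax k hk
    · rw [← Finset.add_sum_erase J _ hk0, hz0, Finset.sum_congr rfl hz, ← Finset.sum_div]
      have e : (1 : L) + (-((z0 : L) / z k0) + (∑ k ∈ J.erase k0, (z k : L)) / z k0) =
          -(((z0 : L) - ∑ k ∈ J, (z k : L)) / z k0) := by
        rw [← Finset.add_sum_erase J _ hk0]
        have := (z k0).ne_zero
        field_simp
        ring
      rw [e, Valuation.map_neg, map_div₀, div_lt_one₀ h00]
      exact hsum.trans_lt hk0big

end Milnor

end Pool.Agent.TH577.UA
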