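import Pool.Agent.TH577.UA.Final
set_option autoImplicit false

/-!
The hypersurfaces `λ ∏_e L_e ^ (w_e + 1) = 1` are smooth for large `λ`.
-/

namespace Pool.Agent.TH577.UA

open Pool.Agent.TH826.GA (cm lf al be lc lc_xv xv vtx eval_vtx al_T be_T eval_lf eval_pderiv_prod
  pderiv_lf)

section pigeon

/-- between two of the numbers `t_0 > t_1 > ...` there are none of the numbers `F e` -/
theorem exists_gap {m : ℕ} (t : ℕ → ℝ) (ht : Antitone t) (F : Fin (m + 1) → ℝ) :
    ∃ k, k < m + 2 ∧ ∀ e, F e < t (k + 1) ∨ t k ≤ F e := by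
  by_contra hcon
  push Not at hcon
  choose f hf1 hf2 using hcon
  set φ : Fin (m + 2) → Fin (m + 1) := fun k => f k k.2 with hφ
  have hinj : Function.Injective φ := by
    intro k l hkl
    by_contra hne
    rcases lt_or_gt_of_ne (fun h : (k : ℕ) = l => hne (Fin.ext h)) with h | h
    · have h1 : t l ≤ t (k + 1) := ht h
      have h2 : F (φ k) < t l := by
        rw [hkl]
        exact hf2 l l.2
      have h3 : t (k + 1) ≤ F (φ k) := hf1 k k.2
      linarith
    · have h1 : t k ≤ t (l + 1) := ht h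
      have h2 : F (φ l) < t k := by
        rw [← hkl]
        exact hf2 k k.2
      have h3 : t (l + 1) ≤ F (φ l) := hf1 l l.2
      linarith
  have h := Fintype.card_le_of_injective φ hinj
  simp only [Fintype.card_fin] at h
  omega

end pigeon

section smooth

variable {K : Type*} [Field K] {d m : ℕ} {c : Fin (m + 1) → Fin (d + 1) → K}
  {a : Fin (m + 1) → K}

theorem lc_eq (σ : K →+* ℂ) {T : Fin (d + 1) → Fin (m + 1)} (hT : (cm c T).det ≠ 0)
    (x : Fin (d + 1) → ℂ) (e : Fin (m + 1)) :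
    lc σ c a x e = ∑ l, σ (al c T e l) * lc σ c a x (T l) + σ (be c a T e) := by
  have h := congrArg (MvPolynomial.eval₂ σ x) (lf_eq (a := a) hT e)
  rw [eval_lf, MvPolynomial.eval₂_add, MvPolynomial.eval₂_sum, MvPolynomial.eval₂_C] at h
  rw [h]
  congr 1
  refine Finset.sum_congr rfl fun l _ => ?_
  rw [MvPolynomial.eval₂_mul, MvPolynomial.eval₂_C, eval_lf]

/-- a basis of small forms -/
theorem exists_small (σ : K →+* ℂ) (hR : ∃ T : Fin (d + 1) → Fin (m + 1), (cm c T).det ≠ 0)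
    (x : Fin (d + 1) → ℂ) : ∃ T : Fin (d + 1) → Fin (m + 1), (cm c T).det ≠ 0 ∧
      ∀ e i, al c T e i ≠ 0 → ‖lc σ c a x (T i)‖ ≤ ‖lc σ c a x e‖ := by
  classical
  obtain ⟨T0, hT0⟩ := hR
  obtain ⟨T, hT, hmin⟩ := Finset.exists_min_image
    (Finset.univ.filter fun T : Fin (d + 1) → Fin (m + 1) => (cm c T).det ≠ 0)
    (fun T => ∑ i, ‖lc σ c a x (T i)‖) ⟨T0, Finset.mem_filter.2 ⟨Finset.mem_univ _, hT0⟩⟩
  have hTd : (cm c T).det ≠ 0 := (Finset.mem_filter.1 hT).2
  refine ⟨T, hTd, fun e i hal => ?_⟩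
  have h1 : (cm c (Function.update T i e)).det ≠ 0 := by
    rw [det_update hTd]
    exact mul_ne_zero hal hTd
  have h2 := hmin _ (Finset.mem_filter.2 ⟨Finset.mem_univ _, h1⟩)
  have h3 : ∑ k, ‖lc σ c a x (Function.update T i e k)‖ = ‖lc σ c a x e‖ +
      ∑ k ∈ Finset.univ.erase i, ‖lc σ c a x (T k)‖ := by
    rw [← Finset.add_sum_erase _ _ (Finset.mem_univ i), Function.update_self]
    congr 1
    refine Finset.sum_congr rfl fun k hk => ?_
    rw [Function.update_of_ne (Finset.ne_of_mem_erase hk)]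
  have h4 : ∑ k, ‖lc σ c a x (T k)‖ = ‖lc σ c a x (T i)‖ +
      ∑ k ∈ Finset.univ.erase i, ‖lc σ c a x (T k)‖ :=
    (Finset.add_sum_erase _ _ (Finset.mem_univ i)).symm
  have h5 : ∑ i, ‖lc σ c a x (T i)‖ ≤ ∑ k, ‖lc σ c a x (Function.update T i e k)‖ := h2
  rw [h3, h4] at h5
  linarith

/-- a lower bound for the forms at a critical point -/
theorem exists_eps (σ : K →+* ℂ) (hR : ∃ T : Fin (d + 1) → Fin (m + 1), (cm c T).det ≠ 0)
    (w : Fin (m + 1) → ℕ) :
    ∃ ε : ℝ, 0 < ε ∧ ∀ x : Fin (d + 1) → ℂ, (∀ e, lc σ c a x e ≠ 0) →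
      (∀ j, ∑ e, ((w e : ℂ) + 1) * (σ (c e j) * (lc σ c a x e)⁻¹) = 0) →
      ∀ e, ε ≤ ‖lc σ c a x e‖ := by
  classical
  set W : ℝ := ∑ T : Fin (d + 1) → Fin (m + 1), ∑ e, ∑ i, ‖σ (al c T e i)‖ with hW
  have hW0 : 0 ≤ W := Finset.sum_nonneg fun T _ => Finset.sum_nonneg fun i _ =>
    Finset.sum_nonneg fun e _ => norm_nonneg _
  have hWT : ∀ T e, ∑ i, ‖σ (al c T e i)‖ ≤ W := fun T e =>
    (Finset.single_le_sum (f := fun e => ∑ i, ‖σ (al c T e i)‖)
      (fun i _ => Finset.sum_nonneg fun e _ => norm_nonneg _) (Finset.mem_univ e)).trans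
    (Finset.single_le_sum (f := fun T => ∑ e, ∑ i, ‖σ (al c T e i)‖)
      (fun T _ => Finset.sum_nonneg fun i _ => Finset.sum_nonneg fun e _ => norm_nonneg _)
      (Finset.mem_univ T))
  have h1 : ∀ p : (Fin (d + 1) → Fin (m + 1)) × Fin (m + 1),
      ∀ᶠ δ in nhdsWithin (0 : ℝ) (Set.Ioi 0),
      be c a p.1 p.2 ≠ 0 → (1 + W) * δ < ‖σ (be c a p.1 p.2)‖ := by
    intro p
    by_cases hS : be c a p.1 p.2 ≠ 0
    · have h2 : 0 < ‖σ (be c a p.1 p.2)‖ := norm_pos_iff.2 ((map_ne_zero σ).2 hS)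
      have hc : ContinuousAt (fun δ : ℝ => (1 + W) * δ) 0 := by fun_prop
      have h3 : ∀ᶠ δ in nhds (0 : ℝ), (1 + W) * δ < ‖σ (be c a p.1 p.2)‖ :=
        hc.eventually_lt continuousAt_const (by simpa using h2)
      filter_upwards [nhdsWithin_le_nhds h3] with ρ hρ _ using hρ
    · exact Filter.Eventually.of_forall fun ρ h => absurd h hS
  obtain ⟨δ, hδ1, hδ2⟩ := ((Filter.eventually_all.2 h1).and self_mem_nhdsWithin).exists
  have hδ : 0 < δ := hδ2
  set B : ℝ := ∑ e, ((w e : ℝ) + 1) with hB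
  have hB1 : 1 ≤ B := by
    have h2 : ((w 0 : ℝ) + 1) ≤ B := Finset.single_le_sum (f := fun e => ((w e : ℝ) + 1))
      (fun e _ => by positivity) (Finset.mem_univ 0)
    have h3 : (0 : ℝ) ≤ w 0 := Nat.cast_nonneg _
    linarith
  set κ : ℝ := 1 / (2 * B * (W + 1)) with hκ
  have hκ0 : 0 < κ := by positivity
  have hκ1 : κ ≤ 1 := by
    rw [hκ, div_le_one (by positivity)]
    nlinarith
  set t : ℕ → ℝ := fun k => δ * κ ^ k with ht
  have ht0 : ∀ k, 0 < t k := fun k => by positivity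
  have htm : Antitone t := fun k l hkl =>
    mul_le_mul_of_nonneg_left (pow_le_pow_of_le_one hκ0.le hκ1 hkl) hδ.le
  have htδ : ∀ k, t k ≤ δ := fun k => by
    have := htm (Nat.zero_le k)
    simpa [ht] using this
  refine ⟨t (m + 3), ht0 _, fun x hu hgrad => ?_⟩
  obtain ⟨T, hT, hsm⟩ := exists_small (a := a) σ hR x
  obtain ⟨k, hk, hgap⟩ := exists_gap t htm fun e => ‖lc σ c a x e‖
  suffices h : ∀ e, ¬ ‖lc σ c a x e‖ < t (k + 1) by
    intro e
    have h2 := not_lt.1 (h e)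
    exact (htm (by omega)).trans h2
  intro e0 he0
  -- the components of the gradient
  have hh : ∀ i, ∑ e, ((w e : ℂ) + 1) * (σ (al c T e i) * (lc σ c a x e)⁻¹) = 0 := by
    intro i
    have h2 : ∀ e, ((w e : ℂ) + 1) * (σ (al c T e i) * (lc σ c a x e)⁻¹) =
        ∑ j, σ ((cm c T)⁻¹ j i) * (((w e : ℂ) + 1) * (σ (c e j) * (lc σ c a x e)⁻¹)) := by
      intro e
      unfold al
      rw [map_sum, Finset.sum_mul, Finset.mul_sum]
      refine Finset.sum_congr rfl fun j _ => ?_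
      rw [map_mul]
      ring
    simp only [h2]
    rw [Finset.sum_comm]
    simp only [← Finset.mul_sum, hgrad, mul_zero, Finset.sum_const_zero]
  set I0 : Finset (Fin (d + 1)) := Finset.univ.filter fun i => ‖lc σ c a x (T i)‖ < t (k + 1)
    with hI0
  set q : Fin (m + 1) → ℂ := fun e =>
    (∑ i ∈ I0, σ (al c T e i) * lc σ c a x (T i)) * (lc σ c a x e)⁻¹ with hq
  have hsum : ∑ e, ((w e : ℂ) + 1) * q e = 0 := by
    have h2 : ∀ e, ((w e : ℂ) + 1) * q e = ∑ i ∈ I0, lc σ c a x (T i) *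
        (((w e : ℂ) + 1) * (σ (al c T e i) * (lc σ c a x e)⁻¹)) := by
      intro e
      simp only [hq]
      rw [Finset.sum_mul, Finset.mul_sum]
      refine Finset.sum_congr rfl fun i _ => ?_
      ring
    simp only [h2]
    rw [Finset.sum_comm]
    simp only [← Finset.mul_sum, hh, mul_zero, Finset.sum_const_zero]
  set F : Finset (Fin (m + 1)) := Finset.univ.filter fun e => ‖lc σ c a x e‖ < t (k + 1)
    with hF
  have hqF : ∀ e ∈ F, q e = 1 := by
    intro e he
    have he' : ‖lc σ c a x e‖ < t (k + 1) := (Finset.mem_filter.1 he).2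
    have h2 : ∑ i ∈ I0, σ (al c T e i) * lc σ c a x (T i) =
        ∑ i, σ (al c T e i) * lc σ c a x (T i) := by
      refine Finset.sum_subset (Finset.subset_univ _) fun i _ hi => ?_
      by_cases hal : al c T e i = 0
      · rw [hal, map_zero, zero_mul]
      · exact (hi (Finset.mem_filter.2 ⟨Finset.mem_univ _, (hsm e i hal).trans_lt he'⟩)).elim
    have h3 := lc_eq (a := a) σ hT x e
    have h4 : be c a T e = 0 := by
      by_contra hbe
      have h5 := hδ1 (T, e) hbe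
      have h6 : σ (be c a T e) = lc σ c a x e -
          ∑ i, σ (al c T e i) * lc σ c a x (T i) := by
        rw [h3]
        ring
      have h7 : ‖∑ i, σ (al c T e i) * lc σ c a x (T i)‖ ≤ W * t (k + 1) := by
        refine (norm_sum_le _ _).trans ?_
        refine le_trans (Finset.sum_le_sum (g := fun i => ‖σ (al c T e i)‖ * t (k + 1))
          fun i _ => ?_) ?_
        · rw [norm_mul]
          by_cases hal : al c T e i = 0
          · rw [hal, map_zero, norm_zero, zero_mul, zero_mul]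
          · exact mul_le_mul_of_nonneg_left ((hsm e i hal).trans he'.le) (norm_nonneg _)
        · rw [← Finset.sum_mul]
          exact mul_le_mul_of_nonneg_right (hWT T e) (ht0 _).le
      have h8 : ‖σ (be c a T e)‖ ≤ (1 + W) * t (k + 1) := by
        rw [h6]
        refine (norm_sub_le _ _).trans ?_
        linarith
      have h9 : (1 + W) * t (k + 1) ≤ (1 + W) * δ :=
        mul_le_mul_of_nonneg_left (htδ _) (by linarith)
      have h10 : (1 + W) * δ < ‖σ (be c a T e)‖ := h5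
      linarith
    simp only [hq]
    rw [h2]
    rw [h4, map_zero, add_zero] at h3
    rw [← h3]
    exact mul_inv_cancel₀ (hu e)
  have hqn : ∀ e ∉ F, ‖q e‖ ≤ 1 / (2 * B) := by
    intro e he
    have h2 : t k ≤ ‖lc σ c a x e‖ := by
      rcases hgap e with h | h
      · exact (he (Finset.mem_filter.2 ⟨Finset.mem_univ _, h⟩)).elim
      · exact h
    have h3 : ‖∑ i ∈ I0, σ (al c T e i) * lc σ c a x (T i)‖ ≤ W * t (k + 1) := by
      refine (norm_sum_le _ _).trans ?_
      refine le_trans (Finset.sum_le_sum (g := fun i => ‖σ (al c T e i)‖ * t (k + 1))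
        fun i hi => ?_) ?_
      · rw [norm_mul]
        exact mul_le_mul_of_nonneg_left (Finset.mem_filter.1 hi).2.le (norm_nonneg _)
      · rw [← Finset.sum_mul]
        refine mul_le_mul_of_nonneg_right ?_ (ht0 _).le
        exact (Finset.sum_le_sum_of_subset_of_nonneg (Finset.subset_univ _)
          fun i _ _ => norm_nonneg _).trans (hWT T e)
    have h4 : t (k + 1) = t k * κ := by
      simp only [ht]
      ring
    have h5 : 0 < ‖lc σ c a x e‖ := norm_pos_iff.2 (hu e)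
    simp only [hq]
    rw [norm_mul, norm_inv, ← div_eq_mul_inv, div_le_iff₀ h5]
    calc ‖∑ i ∈ I0, σ (al c T e i) * lc σ c a x (T i)‖ ≤ W * t (k + 1) := h3
      _ = (W * κ) * t k := by rw [h4]; ring
      _ ≤ (1 / (2 * B)) * t k := by
          refine mul_le_mul_of_nonneg_right ?_ (ht0 _).le
          rw [hκ, mul_one_div, div_le_div_iff₀ (by positivity) (by positivity)]
          nlinarith
      _ ≤ (1 / (2 * B)) * ‖lc σ c a x e‖ := mul_le_mul_of_nonneg_left h2 (by positivity)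
  -- the contradiction
  have h2 := Finset.sum_add_sum_compl F fun e => ((w e : ℂ) + 1) * q e
  rw [hsum] at h2
  have h3 : ∑ e ∈ F, ((w e : ℂ) + 1) * q e = ((∑ e ∈ F, ((w e : ℝ) + 1) : ℝ) : ℂ) := by
    push_cast
    refine Finset.sum_congr rfl fun e he => ?_
    rw [hqF e he, mul_one]
  have h4 : ‖∑ e ∈ Fᶜ, ((w e : ℂ) + 1) * q e‖ ≤ 1 / 2 := by
    refine (norm_sum_le _ _).trans ?_
    have h5 : ∀ e ∈ Fᶜ, ‖((w e : ℂ) + 1) * q e‖ ≤ ((w e : ℝ) + 1) * (1 / (2 * B)) := by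
      intro e he
      have h6 : ‖((w e : ℂ) + 1)‖ = (w e : ℝ) + 1 := by
        have h7 : ((w e : ℂ) + 1) = (((w e : ℝ) + 1 : ℝ) : ℂ) := by push_cast; rfl
        rw [h7, Complex.norm_real, Real.norm_eq_abs, abs_of_nonneg (by positivity)]
      rw [norm_mul, h6]
      exact mul_le_mul_of_nonneg_left (hqn e (Finset.mem_compl.1 he)) (by positivity)
    refine (Finset.sum_le_sum h5).trans ?_
    rw [← Finset.sum_mul]
    have h6 : ∑ e ∈ Fᶜ, ((w e : ℝ) + 1) ≤ B :=
      Finset.sum_le_sum_of_subset_of_nonneg (Finset.subset_univ _) fun e _ _ => by positivity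
    calc (∑ e ∈ Fᶜ, ((w e : ℝ) + 1)) * (1 / (2 * B)) ≤ B * (1 / (2 * B)) :=
          mul_le_mul_of_nonneg_right h6 (by positivity)
      _ = 1 / 2 := by
          field_simp
  have h5 : 1 ≤ ∑ e ∈ F, ((w e : ℝ) + 1) := by
    have h6 : ((w e0 : ℝ) + 1) ≤ ∑ e ∈ F, ((w e : ℝ) + 1) :=
      Finset.single_le_sum (f := fun e => ((w e : ℝ) + 1)) (fun e _ => by positivity)
        (Finset.mem_filter.2 ⟨Finset.mem_univ _, he0⟩)
    have h7 : (0 : ℝ) ≤ w e0 := Nat.cast_nonneg _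
    linarith
  have h6 : ‖((∑ e ∈ F, ((w e : ℝ) + 1) : ℝ) : ℂ)‖ ≤ 1 / 2 := by
    rw [← h3]
    have h7 : ∑ e ∈ F, ((w e : ℂ) + 1) * q e = -∑ e ∈ Fᶜ, ((w e : ℂ) + 1) * q e := by
      linear_combination h2
    rw [h7, norm_neg]
    exact h4
  rw [Complex.norm_real, Real.norm_eq_abs, abs_of_nonneg (by linarith)] at h6
  linarith

theorem exists_smooth (σ : K →+* ℂ) (hR : ∃ T : Fin (d + 1) → Fin (m + 1), (cm c T).det ≠ 0)
    (w : Fin (m + 1) → ℕ) :
    ∃ C : ℝ, ∀ lam : K, C ≤ ‖σ lam‖ → ∀ x : Fin (d + 1) → ℂ,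
      MvPolynomial.eval₂ σ x (aeqn lam 1 w c a) = 0 →
      ∃ j, MvPolynomial.eval₂ σ x (MvPolynomial.pderiv j (aeqn lam 1 w c a)) ≠ 0 := by
  classical
  obtain ⟨ε, hε, hmain⟩ := exists_eps (a := a) σ hR w
  set P : ℝ := ∏ e, ε ^ (w e + 1) with hP
  have hP0 : 0 < P := Finset.prod_pos fun e _ => by positivity
  refine ⟨1 / P + 1, fun lam hlam x hx => ?_⟩
  rw [eval_aeqn, sub_eq_zero, MvPolynomial.eval₂_one, one_mul] at hx
  have hprod : σ lam ≠ 0 ∧ ∏ e, lc σ c a x e ^ (w e + 1) ≠ 0 := by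
    rw [← mul_ne_zero_iff, hx]
    exact one_ne_zero
  have hu : ∀ e, lc σ c a x e ≠ 0 := fun e h => by
    have h1 := (Finset.prod_ne_zero_iff.1 hprod.2) e (Finset.mem_univ e)
    rw [h, zero_pow (Nat.succ_ne_zero _)] at h1
    exact h1 rfl
  by_contra hcon
  push Not at hcon
  have hpd : ∀ j e, MvPolynomial.eval₂ σ x (MvPolynomial.pderiv j (lf c a e ^ (w e + 1))) *
      (MvPolynomial.eval₂ σ x (lf c a e ^ (w e + 1)))⁻¹ =
      ((w e : ℂ) + 1) * (σ (c e j) * (lc σ c a x e)⁻¹) := by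
    intro j e
    rw [Derivation.leibniz_pow, pderiv_lf, Nat.add_sub_cancel, MvPolynomial.eval₂_pow, eval_lf,
      nsmul_eq_mul, smul_eq_mul, MvPolynomial.eval₂_mul, MvPolynomial.eval₂_mul,
      MvPolynomial.eval₂_pow, eval_lf, MvPolynomial.eval₂_C]
    have h1 : MvPolynomial.eval₂ σ x ((w e + 1 : ℕ) : MvPolynomial (Fin (d + 1)) K) =
        (w e : ℂ) + 1 := by
      have h2 := map_natCast (MvPolynomial.eval₂Hom σ x) (w e + 1)
      rw [MvPolynomial.coe_eval₂Hom] at h2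
      rw [h2]
      push_cast
      ring
    rw [h1, pow_succ]
    have := hu e
    field_simp
  have hgrad : ∀ j, ∑ e, ((w e : ℂ) + 1) * (σ (c e j) * (lc σ c a x e)⁻¹) = 0 := by
    intro j
    have h1 := hcon j
    unfold aeqn at h1
    rw [map_sub, MvPolynomial.pderiv_one, sub_zero, one_mul, MvPolynomial.pderiv_C_mul,
      MvPolynomial.eval₂_mul, MvPolynomial.eval₂_C,
      eval_pderiv_prod σ x j _ _ (fun e _ => by
        rw [MvPolynomial.eval₂_pow, eval_lf]
        exact pow_ne_zero _ (hu e))] at h1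
    simp only [hpd] at h1
    rw [MvPolynomial.eval₂_prod] at h1
    simp only [MvPolynomial.eval₂_pow, eval_lf] at h1
    have h2 : (∑ e, ((w e : ℂ) + 1) * (σ (c e j) * (lc σ c a x e)⁻¹)) *
        (σ lam * ∏ e, lc σ c a x e ^ (w e + 1)) = 0 := by
      linear_combination h1
    rwa [hx, mul_one] at h2
  have hfar := hmain x hu hgrad
  have h5 : P ≤ ‖∏ e, lc σ c a x e ^ (w e + 1)‖ := by
    rw [norm_prod]
    refine Finset.prod_le_prod (fun _ _ => by positivity) fun e _ => ?_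
    rw [norm_pow]
    exact pow_le_pow_left₀ hε.le (hfar e) _
  have h6 := congrArg norm hx
  rw [norm_mul, norm_one] at h6
  have h7 : 1 / P < ‖σ lam‖ := by linarith
  rw [div_lt_iff₀ hP0] at h7
  have h8 : ‖σ lam‖ * P ≤ ‖σ lam‖ * ‖∏ e, lc σ c a x e ^ (w e + 1)‖ :=
    mul_le_mul_of_nonneg_left h5 (norm_nonneg _)
  linarith

end smooth

end Pool.Agent.TH577.UA
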