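import Pool.Agent.TH577.UA.Alg
import Pool.Agent.TH577.UA.Loc
set_option autoImplicit false

/-!
Tori in the complex points of the hypersurfaces `λ g ∏_e L_e = 1` near the vertices of the
arrangement, and the regulators of symbols on them.
-/

namespace Pool.Agent.TH577.UA

open Pool.Agent.TH826.MK

open Pool.Agent.TH826.GA hiding exists_points exists_torus

open Pool.Agent.TH826.SX (pairing_close)

section Ev

variable {K : Type*} [Field K] {d n m : ℕ} {σ : K →+* ℂ} {lam : K}
  {g : MvPolynomial (Fin (d + 1)) K} {w : Fin (m + 1) → ℕ} {c : Fin (m + 1) → Fin (d + 1) → K}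
  {a : Fin (m + 1) → K}

/-- the complex points of the hypersurface -/
def PtA (σ : K →+* ℂ) (lam : K) (g : MvPolynomial (Fin (d + 1)) K) (w : Fin (m + 1) → ℕ)
    (c : Fin (m + 1) → Fin (d + 1) → K) (a : Fin (m + 1) → K)
    (x : Fin (d + 1) → ℂ) : Prop :=
  σ lam * (MvPolynomial.eval₂ σ x g * ∏ e, lc σ c a x e ^ (w e + 1)) = 1

theorem eval_aeqn (σ : K →+* ℂ) (lam : K) (g : MvPolynomial (Fin (d + 1)) K)
    (w : Fin (m + 1) → ℕ) (x : Fin (d + 1) → ℂ) :
    MvPolynomial.eval₂ σ x (aeqn lam g w c a) =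
      σ lam * (MvPolynomial.eval₂ σ x g * ∏ e, lc σ c a x e ^ (w e + 1)) - 1 := by
  unfold aeqn
  rw [MvPolynomial.eval₂_sub, MvPolynomial.eval₂_mul, MvPolynomial.eval₂_mul,
    MvPolynomial.eval₂_C, MvPolynomial.eval₂_one, MvPolynomial.eval₂_prod]
  simp only [MvPolynomial.eval₂_pow, eval_lf]

/-- evaluation of the regular functions at a complex point -/
noncomputable def evA {x : Fin (d + 1) → ℂ} (hx : PtA σ lam g w c a x) : ARing lam g w c a →+* ℂ :=
  Ideal.Quotient.lift (Ideal.span {aeqn lam g w c a}) (MvPolynomial.eval₂Hom σ x) (by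
    intro p hp
    have hle : Ideal.span {aeqn lam g w c a} ≤ RingHom.ker (MvPolynomial.eval₂Hom σ x) := by
      rw [Ideal.span_le]
      rintro q rfl
      show MvPolynomial.eval₂ σ x (aeqn lam g w c a) = 0
      rw [eval_aeqn, sub_eq_zero]
      exact hx
    exact hle hp)

theorem evA_apol {x : Fin (d + 1) → ℂ} (hx : PtA σ lam g w c a x)
    (p : MvPolynomial (Fin (d + 1)) K) :
    evA hx (apol lam g w c a p) = MvPolynomial.eval₂Hom σ x p :=
  Ideal.Quotient.lift_mk _ _ _

theorem evA_acst {x : Fin (d + 1) → ℂ} (hx : PtA σ lam g w c a x) (y : K) :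
    evA hx (acst lam g w c a y) = σ y := by
  show evA hx (apol lam g w c a (MvPolynomial.C y)) = _
  rw [evA_apol]
  simp

theorem evA_au {x : Fin (d + 1) → ℂ} (hx : PtA σ lam g w c a x) (e : Fin (m + 1)) :
    evA hx (au lam g w c a e : ARing lam g w c a) = lc σ c a x e := by
  rw [coe_au, evA_apol]
  exact eval_lf σ x e

theorem evA_congr {x y : Fin (d + 1) → ℂ} (hx : PtA σ lam g w c a x) (hy : PtA σ lam g w c a y)
    (h : x = y) : evA hx = evA hy := by
  subst h
  rfl

theorem contDiff_evA {x : (Fin n → ℝ) → (Fin (d + 1) → ℂ)} (hc : ContDiff ℝ 2 x)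
    (hx : ∀ θ, PtA σ lam g w c a (x θ)) (h : ARing lam g w c a) :
    ContDiff ℝ 2 fun θ => evA (hx θ) h := by
  have hxk : ∀ k, ContDiff ℝ 2 fun θ => x θ k := fun k => contDiff_pi.1 hc k
  obtain ⟨p, hp⟩ := Ideal.Quotient.mk_surjective h
  have hmv : ∀ p : MvPolynomial (Fin (d + 1)) K,
      ContDiff ℝ 2 fun θ => MvPolynomial.eval₂Hom σ (x θ) p := by
    intro p
    induction p using MvPolynomial.induction_on with
    | C c => simpa using contDiff_const
    | add p q hp hq => simpa using hp.add hq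
    | mul_X p k hp => simpa using hp.mul (hxk k)
  have e : (fun θ => evA (hx θ) h) = fun θ => MvPolynomial.eval₂Hom σ (x θ) p := by
    funext θ
    rw [← hp]
    exact evA_apol (hx θ) p
  rw [e]
  exact hmv p

/-- a torus in the hypersurface -/
noncomputable def mkA (x : (Fin n → ℝ) → (Fin (d + 1) → ℂ)) (hc : ContDiff ℝ 2 x)
    (hp : ∀ θ i, x (θ + Pi.single i 1) = x θ)
    (hx : ∀ θ, PtA σ lam g w c a (x θ)) : Torus (ARing lam g w c a) n where
  e θ := evA (hx θ)
  smooth h := contDiff_evA hc hx h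
  periodic θ i := evA_congr _ _ (hp θ i)

theorem mkA_au (x : (Fin n → ℝ) → (Fin (d + 1) → ℂ)) (hc : ContDiff ℝ 2 x)
    (hp : ∀ θ i, x (θ + Pi.single i 1) = x θ) (hx : ∀ θ, PtA σ lam g w c a (x θ))
    (e : Fin (m + 1)) : (mkA x hc hp hx).fn (au lam g w c a e : ARing lam g w c a) =
      fun θ => lc σ c a (x θ) e := by
  funext θ
  exact evA_au (hx θ) e

end Ev

section coord

variable {K : Type*} [Field K] {d m : ℕ} {c : Fin (m + 1) → Fin (d + 1) → K}
  {a : Fin (m + 1) → K}

theorem contDiff_eval (σ : K →+* ℂ) (g : MvPolynomial (Fin (d + 1)) K)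
    (T : Fin (d + 1) → Fin (m + 1)) :
    ContDiff ℂ 2 fun u => MvPolynomial.eval₂ σ (xv σ c a T u) g := by
  have hxk : ∀ k, ContDiff ℂ 2 fun u => xv σ c a T u k := fun k =>
    contDiff_pi.1 (contDiff_xv σ T) k
  induction g using MvPolynomial.induction_on with
  | C c => simpa using contDiff_const
  | add p q hp hq => simpa using hp.add hq
  | mul_X p k hp => simpa using hp.mul (hxk k)

theorem xv_zero (σ : K →+* ℂ) (T : Fin (d + 1) → Fin (m + 1)) :
    xv σ c a T 0 = fun j => σ (vtx c a T j) := by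
  funext j
  have h0 : ∀ l : Fin (d + 1), (Fin.cons (0 : (Fin d → ℂ) × ℂ).2 (0 : (Fin d → ℂ) × ℂ).1 :
      Fin (d + 1) → ℂ) l = 0 := fun l => by
    refine Fin.cases ?_ (fun l => ?_) l
    · rfl
    · rfl
  unfold xv vtx
  simp only [h0, zero_add, map_sum, map_mul]

theorem inj_of_det {T : Fin (d + 1) → Fin (m + 1)} (hT : (cm c T).det ≠ 0) :
    Function.Injective T := by
  intro i j hij
  by_contra hne
  apply hT
  refine Matrix.det_zero_of_row_eq hne ?_
  unfold cm
  funext l
  simp only [Matrix.of_apply]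
  rw [hij]

/-- The hyperplanes `L_e = 0` are distinct: no form is a multiple of another one. -/
def Distinct (c : Fin (m + 1) → Fin (d + 1) → K) (a : Fin (m + 1) → K) : Prop :=
  ∀ e e', e ≠ e' → ∀ κ : K, ¬ ((∀ j, c e j = κ * c e' j) ∧ a e = κ * a e')

/-- the largest index `i` such that the form `T i` occurs in the form `e` -/
noncomputable def top (c : Fin (m + 1) → Fin (d + 1) → K) (T : Fin (d + 1) → Fin (m + 1))
    (e : Fin (m + 1)) : Fin (d + 1) :=
  open Classical in (Finset.univ.filter fun i => al c T e i ≠ 0).sup id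

theorem le_top {T : Fin (d + 1) → Fin (m + 1)} {e : Fin (m + 1)} {i : Fin (d + 1)}
    (h : al c T e i ≠ 0) : i ≤ top c T e := by
  classical
  unfold top
  exact Finset.le_sup (f := id) (Finset.mem_filter.2 ⟨Finset.mem_univ _, h⟩)

theorem al_top {T : Fin (d + 1) → Fin (m + 1)} {e : Fin (m + 1)} (h : ∃ i, al c T e i ≠ 0) :
    al c T e (top c T e) ≠ 0 := by
  classical
  obtain ⟨i, hi⟩ := h
  have hne : (Finset.univ.filter fun i => al c T e i ≠ 0).Nonempty :=
    ⟨i, Finset.mem_filter.2 ⟨Finset.mem_univ _, hi⟩⟩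
  obtain ⟨j, hj, h⟩ := Finset.exists_mem_eq_sup _ hne (id : Fin (d + 1) → Fin (d + 1))
  have h2 : top c T e = j := by
    unfold top
    rw [← show id j = j from rfl, ← h]
  rw [h2]
  exact (Finset.mem_filter.1 hj).2

theorem top_T {T : Fin (d + 1) → Fin (m + 1)} (hT : (cm c T).det ≠ 0) (i : Fin (d + 1)) :
    top c T (T i) = i := by
  have h1 : al c T (T i) i ≠ 0 := by
    rw [al_T T hT, if_pos rfl]
    exact one_ne_zero
  have h2 := al_top ⟨i, h1⟩
  rw [al_T T hT] at h2
  by_contra hne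
  rw [if_neg (Ne.symm hne)] at h2
  exact h2 rfl

theorem sum_al {T : Fin (d + 1) → Fin (m + 1)} (hT : (cm c T).det ≠ 0) (e : Fin (m + 1))
    (j : Fin (d + 1)) : c e j = ∑ l, al c T e l * c (T l) j := by
  unfold al
  simp only [Finset.sum_mul]
  rw [Finset.sum_comm]
  have h3 : ∀ p, ∑ k, c e p * (cm c T)⁻¹ p k * c (T k) j = c e p * (if p = j then 1 else 0) := by
    intro p
    simp only [mul_assoc, ← Finset.mul_sum]
    have h := congrFun (congrFun (Matrix.nonsing_inv_mul (cm c T)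
      (isUnit_iff_ne_zero.2 hT)) p) j
    rw [Matrix.mul_apply, Matrix.one_apply] at h
    rw [← h]
    rfl
  simp only [h3]
  simp

/-- a form through the vertex, in which only one form of `T` occurs, is a form of `T` -/
theorem eq_T_of {T : Fin (d + 1) → Fin (m + 1)} (hT : (cm c T).det ≠ 0) (hD : Distinct c a)
    {e : Fin (m + 1)} (hbe : be c a T e = 0) {i : Fin (d + 1)}
    (h : ∀ l, l ≠ i → al c T e l = 0) : e = T i := by
  by_contra hne
  refine hD e (T i) hne (al c T e i) ⟨fun j => ?_, ?_⟩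
  · rw [sum_al hT e j, Finset.sum_eq_single i]
    · intro l _ hl
      rw [h l hl, zero_mul]
    · intro h
      exact absurd (Finset.mem_univ i) h
  · have h1 : ∑ l, al c T e l * a (T l) - a e = 0 := hbe
    rw [Finset.sum_eq_single i] at h1
    · exact (sub_eq_zero.1 h1).symm
    · intro l _ hl
      rw [h l hl, zero_mul]
    · intro h
      exact absurd (Finset.mem_univ i) h

theorem exists_al {T : Fin (d + 1) → Fin (m + 1)} (hT : (cm c T).det ≠ 0) (hD : Distinct c a)
    {e : Fin (m + 1)} (hbe : be c a T e = 0) : ∃ i, al c T e i ≠ 0 := by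
  by_contra h
  push Not at h
  have h1 := eq_T_of hT hD hbe (i := 0) fun l _ => h l
  have h2 := h 0
  rw [h1, al_T T hT, if_pos rfl] at h2
  exact one_ne_zero h2

theorem eq_T_zero {T : Fin (d + 1) → Fin (m + 1)} (hT : (cm c T).det ≠ 0) (hD : Distinct c a)
    {e : Fin (m + 1)} (hbe : be c a T e = 0) (h : top c T e = 0) : e = T 0 := by
  refine eq_T_of hT hD hbe fun l hl => ?_
  by_contra h1
  have h2 := le_top h1
  rw [h] at h2
  exact hl (Fin.le_zero_iff.1 h2)

end coord

section chart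

variable {d : ℕ}

/-- the exponents of `∏_{j ≥ i} y_j` -/
def stp (i j : Fin (d + 1)) : ℕ := if i ≤ j then 1 else 0

/-- the exponents of `∏_{i ≤ j < k} y_j` -/
def seg (i k j : Fin (d + 1)) : ℕ := if i ≤ j ∧ j < k then 1 else 0

theorem contDiff_mmon (μ : Fin (d + 1) → ℕ) : ContDiff ℂ 2 (mmon μ) := by
  unfold mmon
  refine (contDiff_snd.pow _).mul (contDiff_prod fun k _ => ContDiff.pow ?_ _)
  exact (contDiff_apply ℂ ℂ k).comp contDiff_fst

theorem mmon_add (μ ν : Fin (d + 1) → ℕ) (y : (Fin d → ℂ) × ℂ) :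
    mmon (fun j => μ j + ν j) y = mmon μ y * mmon ν y := by
  unfold mmon
  simp only [pow_add, Finset.prod_mul_distrib]
  ring

theorem mmon_zero_ne {μ : Fin (d + 1) → ℕ} (h : ∃ j, μ j ≠ 0) : mmon μ 0 = 0 := by
  obtain ⟨j, hj⟩ := h
  unfold mmon
  revert hj
  refine Fin.cases (fun hj => ?_) (fun k hj => ?_) j
  · have : (0 : (Fin d → ℂ) × ℂ).2 = 0 := rfl
    rw [this, zero_pow hj, zero_mul]
  · rw [Finset.prod_eq_zero (Finset.mem_univ k), mul_zero]
    have : (0 : (Fin d → ℂ) × ℂ).1 k = 0 := rfl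
    rw [this, zero_pow hj]

theorem mmon_zero_eq {μ : Fin (d + 1) → ℕ} (h : ∀ j, μ j = 0) (y : (Fin d → ℂ) × ℂ) :
    mmon μ y = 1 := by
  unfold mmon
  simp only [h, pow_zero, Finset.prod_const_one, mul_one]

theorem stp_add {i k : Fin (d + 1)} (h : i ≤ k) (y : (Fin d → ℂ) × ℂ) :
    mmon (stp i) y = mmon (stp k) y * mmon (seg i k) y := by
  rw [← mmon_add]
  congr 1
  funext j
  unfold stp seg
  by_cases h1 : i ≤ j
  · by_cases h2 : k ≤ j
    · have h3 : ¬ (i ≤ j ∧ j < k) := fun hh => absurd hh.2 (not_lt.2 h2)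
      rw [if_pos h1, if_pos h2, if_neg h3]
    · rw [if_pos h1, if_neg h2, if_pos ⟨h1, not_le.1 h2⟩]
  · have h2 : ¬ k ≤ j := fun hh => h1 (h.trans hh)
    have h3 : ¬ (i ≤ j ∧ j < k) := fun hh => h1 hh.1
    rw [if_neg h1, if_neg h2, if_neg h3]

/-- the chart `u_i = ∏_{j ≥ i} y_j` -/
noncomputable def psi (y : (Fin d → ℂ) × ℂ) : (Fin d → ℂ) × ℂ :=
  (fun k => mmon (stp k.succ) y, mmon (stp 0) y)

theorem psi_apply (y : (Fin d → ℂ) × ℂ) (i : Fin (d + 1)) :
    (Fin.cons (psi y).2 (psi y).1 : Fin (d + 1) → ℂ) i = mmon (stp i) y := by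
  refine Fin.cases ?_ (fun k => ?_) i
  · rfl
  · rfl

theorem psi_zero : psi (0 : (Fin d → ℂ) × ℂ) = 0 := by
  have h : ∀ i : Fin (d + 1), mmon (stp i) 0 = 0 := fun i =>
    mmon_zero_ne ⟨i, by unfold stp; rw [if_pos le_rfl]; exact one_ne_zero⟩
  unfold psi
  simp only [h]
  rfl

theorem contDiff_psi : ContDiff ℂ 2 (psi (d := d)) :=
  (contDiff_pi.2 fun k => contDiff_mmon _).prodMk (contDiff_mmon _)

end chart

section main

variable {K : Type*} [Field K] {d m : ℕ} {c : Fin (m + 1) → Fin (d + 1) → K}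
  {a : Fin (m + 1) → K} {g : MvPolynomial (Fin (d + 1)) K} {w : Fin (m + 1) → ℕ}

/-- the exponents of the form `e` in the chart at the vertex of `T` -/
noncomputable def mu (c : Fin (m + 1) → Fin (d + 1) → K) (a : Fin (m + 1) → K)
    (T : Fin (d + 1) → Fin (m + 1)) (e : Fin (m + 1)) : Fin (d + 1) → ℕ :=
  open Classical in if be c a T e = 0 then stp (top c T e) else 0

/-- the leading coefficients of the regulators -/
noncomputable def lead (c : Fin (m + 1) → Fin (d + 1) → K) (a : Fin (m + 1) → K)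
    (T p q : Fin (d + 1) → Fin (m + 1)) : ℝ :=
  (Matrix.of fun l j => (mu c a T (p l) j : ℝ) - mu c a T (q l) j).det

theorem det_yrow {q : ℕ} (hq : 0 < q) (N : Fin d → ℕ) : (Matrix.of (yrow q N)).det ≠ 0 := by
  have hq' : (q : ℝ) ≠ 0 := by exact_mod_cast hq.ne'
  rw [Matrix.det_of_isUpperTriangular]
  · refine Finset.prod_ne_zero_iff.2 fun i _ => ?_
    refine Fin.cases ?_ (fun k => ?_) i
    · simpa [yrow] using hq'
    · simpa [yrow] using hq'
  · intro i j hij
    have hij' : j < i := hij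
    revert hij'
    refine Fin.cases (fun h => absurd h (Fin.not_lt_zero j)) (fun k h => ?_) i
    have h1 : j ≠ k.succ := h.ne
    simp [yrow, Pi.single_eq_of_ne h1]

theorem lead_eq (r : ℕ) (N : Fin d → ℕ) (T p q : Fin (d + 1) → Fin (m + 1)) :
    (Matrix.of fun l j => mrow r N (mu c a T (p l)) j - mrow r N (mu c a T (q l)) j).det =
      lead c a T p q * (Matrix.of (yrow r N)).det := by
  have h : (Matrix.of fun l j => mrow r N (mu c a T (p l)) j -
      mrow r N (mu c a T (q l)) j) =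
      (Matrix.of fun l j => (mu c a T (p l) j : ℝ) - mu c a T (q l) j) *
        Matrix.of (yrow r N) := by
    ext l j
    rw [Matrix.mul_apply]
    simp only [Matrix.of_apply]
    unfold mrow
    rw [← Finset.sum_sub_distrib]
    refine Finset.sum_congr rfl fun i _ => ?_
    ring
  rw [h, Matrix.det_mul]
  rfl

/-- the factorization of the forms in the chart -/
theorem exists_fac (σ : K →+* ℂ) {T : Fin (d + 1) → Fin (m + 1)} (hT : (cm c T).det ≠ 0)
    (hD : Distinct c a) (e : Fin (m + 1)) :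
    ∃ h : (Fin d → ℂ) × ℂ → ℂ, (∀ y, lc σ c a (xv σ c a T (psi y)) e =
      mmon (mu c a T e) y * h y) ∧ ContDiff ℂ 2 h ∧ h 0 ≠ 0 := by
  have hlc : ∀ y, lc σ c a (xv σ c a T (psi y)) e =
      ∑ l, σ (al c T e l) * mmon (stp l) y + σ (be c a T e) := by
    intro y
    rw [lc_xv]
    simp only [psi_apply]
  by_cases hbe : be c a T e = 0
  · have hmu : mu c a T e = stp (top c T e) := by
      unfold mu
      rw [if_pos hbe]
    refine ⟨fun y => ∑ l, σ (al c T e l) * mmon (seg l (top c T e)) y, fun y => ?_,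
      ContDiff.sum fun l _ => contDiff_const.mul (contDiff_mmon _), ?_⟩
    · rw [hlc, hbe, map_zero, add_zero, hmu, Finset.mul_sum]
      refine Finset.sum_congr rfl fun l _ => ?_
      by_cases hl : al c T e l = 0
      · rw [hl, map_zero, zero_mul, zero_mul, mul_zero]
      · rw [stp_add (le_top hl)]
        ring
    · show ∑ l, σ (al c T e l) * mmon (seg l (top c T e)) 0 ≠ 0
      rw [Finset.sum_eq_single (top c T e)]
      · rw [mmon_zero_eq, mul_one]
        · exact (map_ne_zero σ).2 (al_top (exists_al hT hD hbe))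
        · intro j
          unfold seg
          rw [if_neg fun h => absurd h.2 (not_lt.2 h.1)]
      · intro l _ hl
        by_cases hl0 : al c T e l = 0
        · rw [hl0, map_zero, zero_mul]
        · have h1 : l < top c T e := lt_of_le_of_ne (le_top hl0) hl
          rw [mmon_zero_ne ⟨l, by unfold seg; rw [if_pos ⟨le_rfl, h1⟩]; exact one_ne_zero⟩,
            mul_zero]
      · intro h
        exact absurd (Finset.mem_univ _) h
  · have hmu : mu c a T e = 0 := by
      unfold mu
      rw [if_neg hbe]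
    refine ⟨fun y => ∑ l, σ (al c T e l) * mmon (stp l) y + σ (be c a T e), fun y => ?_,
      (ContDiff.sum fun l _ => contDiff_const.mul (contDiff_mmon _)).add contDiff_const, ?_⟩
    · rw [hlc, hmu, mmon_zero_eq (μ := 0) (fun j => rfl), one_mul]
    · have h0 : ∀ l : Fin (d + 1), mmon (stp l) 0 = 0 := fun i =>
        mmon_zero_ne ⟨i, by unfold stp; rw [if_pos le_rfl]; exact one_ne_zero⟩
      simp only [h0, mul_zero, Finset.sum_const_zero, zero_add]
      exact (map_ne_zero σ).2 hbe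

theorem exists_torus (σ : K →+* ℂ) {T : Fin (d + 1) → Fin (m + 1)} (hT : (cm c T).det ≠ 0)
    (hD : Distinct c a) (hg : MvPolynomial.eval (vtx c a T) g ≠ 0)
    {I : Type*} [Fintype I] [Nonempty I] (κ : I → Fin (d + 1) → K) (hκ : ∀ i l, κ i l ≠ 0)
    (p q : I → Fin (d + 1) → Fin (m + 1)) :
    ∃ D : ℝ, D ≠ 0 ∧ ∀ ε : ℝ, 0 < ε →
    ∃ Λ : ℝ, 1 < Λ ∧ ∀ lam : K, Λ ≤ ‖σ lam‖ → ∃ Γ : Torus (ARing lam g w c a) d,
      (∀ θ x, Γ.e θ (acst lam g w c a x) = σ x) ∧
      ∀ i, |Γ.reg (symb (pent lam g w c a (κ i) (p i) (q i))) / (-Real.log ‖σ lam‖) -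
          lead c a T (p i) (q i) * D| ≤ ε := by
  classical
  -- the chart
  choose h hfac hcd hne using fun e => exists_fac (a := a) σ hT hD e
  set N : Fin d → ℕ := fun k => ∑ e : (e : Fin (m + 1)) × Fin (w e + 1),
    mu c a T e.1 k.succ with hN
  set r : ℕ := w (T 0) + 1 with hr
  have hr0 : 0 < r := Nat.succ_pos _
  have hmu0 : ∑ e : (e : Fin (m + 1)) × Fin (w e + 1), mu c a T e.1 0 = r := by
    rw [Fintype.sum_sigma]
    simp only [Finset.sum_const, Finset.card_univ, Fintype.card_fin, smul_eq_mul]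
    rw [Finset.sum_eq_single (T 0)]
    · unfold mu
      rw [if_pos (be_T T hT 0), top_T hT]
      unfold stp
      rw [if_pos le_rfl, mul_one]
    · intro e _ he
      unfold mu
      split_ifs with hbe
      · unfold stp
        rw [if_neg, mul_zero]
        intro h1
        exact he (eq_T_zero hT hD hbe (Fin.le_zero_iff.1 h1))
      · exact mul_zero _
    · intro h
      exact absurd (Finset.mem_univ _) h
  refine ⟨(2 * Real.pi) ^ d * (Matrix.of (yrow r N)).det, mul_ne_zero
    (pow_ne_zero _ (by have := Real.pi_pos; positivity)) (det_yrow hr0 N), fun ε hε => ?_⟩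
  choose δ hδ hclose using fun i : I =>
    pairing_close (Matrix.of fun l j => mrow r N (mu c a T (p i l)) j -
      mrow r N (mu c a T (q i l)) j) hε
  obtain ⟨i0, -, hi0⟩ := Finset.exists_min_image Finset.univ δ
    ⟨Classical.arbitrary I, Finset.mem_univ _⟩
  set δ0 : ℝ := δ i0 / 5 with hδ0
  have hδ0pos : 0 < δ0 := by
    have := hδ i0
    rw [hδ0]
    linarith
  have hδle : ∀ i, 4 * δ0 < δ i := by
    intro i
    have h1 := hi0 i (Finset.mem_univ i)
    have h2 := hδ i0
    rw [hδ0]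
    linarith
  obtain ⟨η0, hη0, hX⟩ := exists_points (q := r) (N := N)
    (H := fun (e : Option ((e : Fin (m + 1)) × Fin (w e + 1))) y => Option.elim e
      (MvPolynomial.eval₂ σ (xv σ c a T (psi y)) g) fun e => lc σ c a (xv σ c a T (psi y)) e.1)
    (h := fun (e : Option ((e : Fin (m + 1)) × Fin (w e + 1))) y => Option.elim e
      (MvPolynomial.eval₂ σ (xv σ c a T (psi y)) g) fun e => h e.1 y)
    (μ := fun e => Option.elim e 0 fun e => mu c a T e.1)
    (fun e y => by
      cases e with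
      | none =>
        show _ = mmon 0 y * _
        rw [mmon_zero_eq (μ := 0) fun j => rfl, one_mul]
        rfl
      | some e => exact hfac e.1 y)
    (fun e => by
      cases e with
      | none => exact (contDiff_eval σ g T).comp contDiff_psi
      | some e => exact hcd e.1)
    (fun e => by
      cases e with
      | none =>
        show MvPolynomial.eval₂ σ (xv σ c a T (psi 0)) g ≠ 0
        rw [psi_zero, xv_zero]
        have h1 := MvPolynomial.eval₂_comp_left σ (RingHom.id K) (vtx c a T) g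
        rw [RingHom.comp_id] at h1
        have h2 : MvPolynomial.eval₂ σ (fun j => σ (vtx c a T j)) g =
            σ (MvPolynomial.eval (vtx c a T) g) := h1.symm
        rw [h2]
        exact (map_ne_zero σ).2 hg
      | some e => exact hne e.1)
    (by
      rw [Fintype.sum_option]
      simp only [Option.elim]
      rw [hmu0]
      exact zero_add _) hr0
    (fun k => by
      rw [Fintype.sum_option]
      simp only [Option.elim]
      rw [hN]
      exact zero_add _) hδ0pos
  set G : ℝ := ∑ i : I, ∑ l, |Real.log ‖σ (κ i l)‖| with hG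
  have hG0 : 0 ≤ G := Finset.sum_nonneg fun S _ => Finset.sum_nonneg fun i _ => abs_nonneg _
  have hGS : ∀ i l, |Real.log ‖σ (κ i l)‖| ≤ G := fun i l =>
    (Finset.single_le_sum (f := fun l => |Real.log ‖σ (κ i l)‖|)
      (fun i _ => abs_nonneg _) (Finset.mem_univ l)).trans
    (Finset.single_le_sum (f := fun i => ∑ l, |Real.log ‖σ (κ i l)‖|)
      (fun S _ => Finset.sum_nonneg fun i _ => abs_nonneg _) (Finset.mem_univ i))
  have hinvpos : 0 < 1 / η0 := by positivity
  refine ⟨1 / η0 + 2 + Real.exp (G / δ0), by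
    have := Real.exp_pos (G / δ0)
    linarith, fun lam hlam => ?_⟩
  have hexp := Real.exp_pos (G / δ0)
  have hln : 0 < ‖σ lam‖ := by linarith
  have hl0 : σ lam ≠ 0 := norm_pos_iff.1 hln
  have hη : ‖(σ lam)⁻¹‖ < η0 := by
    rw [norm_inv, inv_lt_comm₀ hln hη0, ← one_div]
    linarith
  obtain ⟨hlog, U, hUc, hUp, hUe, hUg, hUest⟩ := hX _ (inv_ne_zero hl0) hη
  have hlogeq : Real.log ‖(σ lam)⁻¹‖ = -Real.log ‖σ lam‖ := by rw [norm_inv, Real.log_inv]
  rw [hlogeq] at hlog hUest
  have hbig : G ≤ δ0 * |(-Real.log ‖σ lam‖)| := by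
    have h1 : G / δ0 ≤ Real.log ‖σ lam‖ := by
      rw [Real.le_log_iff_exp_le hln]
      linarith
    rw [div_le_iff₀ hδ0pos] at h1
    rw [abs_of_neg hlog, neg_neg]
    linarith
  set s : ℝ := -Real.log ‖σ lam‖ with hs
  have hs0 : s ≠ 0 := hlog.ne
  have hspos : 0 < |s| := abs_pos.2 hs0
  have hgs : ∀ i l, |Real.log ‖σ (κ i l)‖ / s| ≤ δ0 := by
    intro i l
    rw [abs_div, div_le_iff₀ hspos]
    exact (hGS i l).trans hbig
  set X : (Fin d → ℝ) → (Fin (d + 1) → ℂ) := fun θ => xv σ c a T (psi (U θ)) with hXdef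
  have hXc : ContDiff ℝ 2 X :=
    (((contDiff_xv σ T).comp contDiff_psi).restrict_scalars ℝ).comp hUc
  have hXp : ∀ θ i, X (θ + Pi.single i 1) = X θ := fun θ i => by
    simp only [hXdef, hUp]
  have hPt : ∀ θ, PtA σ lam g w c a (X θ) := fun θ => by
    have h1 := hUe θ
    rw [Fintype.prod_option] at h1
    have h3 : ∏ e : (e : Fin (m + 1)) × Fin (w e + 1), lc σ c a (X θ) e.1 =
        ∏ e, lc σ c a (X θ) e ^ (w e + 1) := by
      rw [Fintype.prod_sigma]
      simp only [Finset.prod_const, Finset.card_univ, Fintype.card_fin]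
    have h2 : MvPolynomial.eval₂ σ (X θ) g * ∏ e, lc σ c a (X θ) e ^ (w e + 1) =
        (σ lam)⁻¹ := by
      rw [← h3]
      exact h1
    unfold PtA
    rw [h2]
    exact mul_inv_cancel₀ hl0
  have hgoodL : ∀ e, Good fun θ => lc σ c a (X θ) e := fun e => hUg (some ⟨e, 0⟩)
  have hest : ∀ e θ, |Real.log ‖lc σ c a (X θ) e‖ / s - mrow r N (mu c a T e) 0| ≤ δ0 ∧
      ∀ j, ‖lw (fun θ => lc σ c a (X θ) e) j θ - 2 * Real.pi * Complex.I *
        mrow r N (mu c a T e) j.succ‖ ≤ δ0 := fun e θ => hUest (some ⟨e, 0⟩) θ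
  refine ⟨mkA X hXc hXp hPt, fun θ x => evA_acst (hPt θ) x, fun i => ?_⟩
  have hfin : lead c a T (p i) (q i) * ((2 * Real.pi) ^ d * (Matrix.of (yrow r N)).det) =
      (2 * Real.pi) ^ d * (Matrix.of fun l j => mrow r N (mu c a T (p i l)) j -
        mrow r N (mu c a T (q i l)) j).det := by
    rw [lead_eq]
    ring
  rw [Torus.reg_symb, hfin]
  set Γ := mkA X hXc hXp hPt with hΓ
  have hκc : ∀ l, σ (κ i l) ≠ 0 := fun l => (map_ne_zero σ).2 (hκ i l)
  have hau : ∀ e, Γ.fn (au lam g w c a e : ARing lam g w c a) = fun θ => lc σ c a (X θ) e := fun e =>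
    mkA_au X hXc hXp hPt e
  have hgoodE : ∀ l, Good (Γ.fn (pent lam g w c a (κ i) (p i) (q i) l : ARing lam g w c a)) :=
    fun l => Γ.good _
  have hmul : ∀ l : Fin (d + 1), (fun θ =>
      Γ.fn (pent lam g w c a (κ i) (p i) (q i) l : ARing lam g w c a) θ *
      lc σ c a (X θ) (q i l)) = fun θ => σ (κ i l) * lc σ c a (X θ) (p i l) := by
    intro l
    funext θ
    have h1 := congrFun (hau (q i l)) θ
    have h2 := congrFun (hau (p i l)) θ
    have h3 : Γ.fn (acst lam g w c a (ku (κ i l) : K)) θ = σ (κ i l) := by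
      rw [coe_ku (hκ i l)]
      exact evA_acst (hPt θ) _
    rw [← h1, ← h2, ← h3]
    unfold Torus.fn
    rw [← map_mul, ← map_mul]
    congr 1
    unfold pent
    rw [← Units.val_mul, mul_assoc, div_mul_cancel]
    rfl
  refine hclose i _ _ hs0 hgoodE (fun l θ => ?_) (fun l j θ => ?_)
  · change |Real.log ‖Γ.fn (pent lam g w c a (κ i) (p i) (q i) l : ARing lam g w c a) θ‖ / s -
      (mrow r N (mu c a T (p i l)) 0 - mrow r N (mu c a T (q i l)) 0)| < δ i
    have h1 := (hest (p i l) θ).1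
    have h2 := (hest (q i l) θ).1
    have h0 := hgs i l
    have h3 : Real.log ‖Γ.fn (pent lam g w c a (κ i) (p i) (q i) l : ARing lam g w c a) θ *
        lc σ c a (X θ) (q i l)‖ = Real.log ‖σ (κ i l) * lc σ c a (X θ) (p i l)‖ :=
      congrArg (fun z : ℂ => Real.log ‖z‖) (congrFun (hmul l) θ)
    rw [norm_mul, norm_mul, Real.log_mul (norm_ne_zero_iff.2 ((hgoodE l).ne_zero θ))
      (norm_ne_zero_iff.2 ((hgoodL _).ne_zero θ)), Real.log_mul (norm_ne_zero_iff.2 (hκc l))
      (norm_ne_zero_iff.2 ((hgoodL _).ne_zero θ))] at h3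
    have h4 : Real.log ‖Γ.fn (pent lam g w c a (κ i) (p i) (q i) l : ARing lam g w c a) θ‖ =
        Real.log ‖σ (κ i l)‖ + Real.log ‖lc σ c a (X θ) (p i l)‖ -
        Real.log ‖lc σ c a (X θ) (q i l)‖ := by
      linarith
    rw [h4, sub_div, add_div]
    refine lt_of_le_of_lt ?_ (hδle i)
    have h5 := abs_le.1 h1
    have h6 := abs_le.1 h2
    have h7 := abs_le.1 h0
    rw [abs_le]
    constructor <;> linarith [h5.1, h5.2, h6.1, h6.2, h7.1, h7.2]
  · change ‖lw (Γ.fn (pent lam g w c a (κ i) (p i) (q i) l : ARing lam g w c a)) j θ -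
      2 * Real.pi * Complex.I *
        ((mrow r N (mu c a T (p i l)) j.succ - mrow r N (mu c a T (q i l)) j.succ : ℝ) : ℂ)‖ < δ i
    have h1 := (hest (p i l) θ).2 j
    have h2 := (hest (q i l) θ).2 j
    have h3 := lw_mul (hgoodE l) (hgoodL (q i l)) j θ
    rw [hmul l] at h3
    have h5 := lw_mul (good_const (d := d) (hκc l)) (hgoodL (p i l)) j θ
    rw [lw_const, zero_add] at h5
    have h4 : lw (Γ.fn (pent lam g w c a (κ i) (p i) (q i) l : ARing lam g w c a)) j θ =
        lw (fun θ => lc σ c a (X θ) (p i l)) j θ -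
        lw (fun θ => lc σ c a (X θ) (q i l)) j θ := by
      rw [eq_sub_iff_add_eq, ← h5]
      exact h3.symm
    rw [h4]
    refine lt_of_le_of_lt ?_ (hδle i)
    have e2 : lw (fun θ => lc σ c a (X θ) (p i l)) j θ -
        lw (fun θ => lc σ c a (X θ) (q i l)) j θ - 2 * Real.pi * Complex.I *
          ((mrow r N (mu c a T (p i l)) j.succ - mrow r N (mu c a T (q i l)) j.succ : ℝ) : ℂ) =
        (lw (fun θ => lc σ c a (X θ) (p i l)) j θ -
          2 * Real.pi * Complex.I * mrow r N (mu c a T (p i l)) j.succ) -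
        (lw (fun θ => lc σ c a (X θ) (q i l)) j θ -
          2 * Real.pi * Complex.I * mrow r N (mu c a T (q i l)) j.succ) := by
      push_cast
      ring
    rw [e2]
    refine (norm_sub_le _ _).trans ?_
    linarith

end main

end Pool.Agent.TH577.UA
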